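import Pool.Agent.Lib.H52A.Base

/-!
The integral of a function with values in `[0,1]` against a finitely additive probability, and
two-sided invariant means from left-invariant ones.
-/

set_option autoImplicit false

namespace Pool.Agent.H52A

open Set Filter Topology

variable {X : Type*} {m : Set X → ℝ}

/-- `∑_{k < L} m {f > k}`, the integral of `f : X → ℕ` when `f ≤ L` -/
noncomputable def S (m : Set X → ℝ) (L : ℕ) (f : X → ℕ) : ℝ :=
  ∑ k ∈ Finset.range L, m {x | k < f x}

/-- partition of a set by the values of a function -/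
lemma sum_fibre (h : FAP m) (L : ℕ) (f : X → ℕ) (B : Set X) :
    ∑ k ∈ Finset.range L, m ({x | f x = k} ∩ B) = m ({x | f x < L} ∩ B) := by
  induction L with
  | zero => simp [h.empty]
  | succ L ih =>
    rw [Finset.sum_range_succ, ih, ← h.add]
    · congr 1
      ext x
      simp only [mem_union, mem_inter_iff]
      constructor
      · rintro (⟨h1, h2⟩ | ⟨h1, h2⟩)
        · exact ⟨Nat.lt_succ_of_lt h1, h2⟩
        · exact ⟨by have : f x = L := h1
                    show f x < L + 1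
                    omega, h2⟩
      · rintro ⟨h1, h2⟩
        rcases Nat.lt_succ_iff_lt_or_eq.1 h1 with h3 | h3
        · exact Or.inl ⟨h3, h2⟩
        · exact Or.inr ⟨h3, h2⟩
    · rw [disjoint_left]
      rintro x ⟨h1, _⟩ ⟨h2, _⟩
      have h1 : f x < L := h1
      have h2 : f x = L := h2
      omega

lemma S_add_ind (h : FAP m) (L : ℕ) (f g : X → ℕ) (B : Set X) (hf : ∀ x, f x < L)
    (hg : ∀ x, (x ∈ B → g x = f x + 1) ∧ (x ∉ B → g x = f x)) :
    S m L g = S m L f + m B := by
  have h1 : ∀ k, m {x | k < g x} = m {x | k < f x} + m ({x | f x = k} ∩ B) := by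
    intro k
    rw [← h.add]
    · congr 1
      ext x
      show k < g x ↔ k < f x ∨ (f x = k ∧ x ∈ B)
      by_cases hx : x ∈ B
      · have := (hg x).1 hx
        simp only [hx, and_true]; omega
      · have := (hg x).2 hx
        simp only [hx, and_false, or_false]; omega
    · rw [disjoint_left]
      rintro x h1 ⟨h2, _⟩
      have h1 : k < f x := h1
      have h2 : f x = k := h2
      omega
  unfold S
  simp_rw [h1]
  rw [Finset.sum_add_distrib, sum_fibre h]
  congr 2
  ext x
  simp only [mem_inter_iff]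
  exact ⟨fun h => h.2, fun h => ⟨hf x, h⟩⟩

lemma S_add (h : FAP m) (L : ℕ) (f g : X → ℕ) (hfg : ∀ x, f x + g x < L) :
    S m L (fun x => f x + g x) = S m L f + S m L g := by
  have key : ∀ k, k ≤ L → S m L (fun x => f x + min (g x) k) =
      S m L f + ∑ i ∈ Finset.range k, m {x | i < g x} := by
    intro k
    induction k with
    | zero => intro _; simp
    | succ k ih =>
      intro hk
      rw [Finset.sum_range_succ, ← add_assoc, ← ih (by omega)]
      apply S_add_ind h L _ _ {x | k < g x}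
      · intro x
        have := hfg x
        have h2 : min (g x) k ≤ g x := min_le_left _ _
        omega
      · intro x
        constructor
        · intro hx
          have hx : k < g x := hx
          rw [min_eq_right (by omega), min_eq_right (by omega)]
          omega
        · intro hx
          have hx : ¬ k < g x := hx
          rw [min_eq_left (by omega), min_eq_left (by omega)]
  have h1 := key L le_rfl
  have h2 : (fun x => f x + min (g x) L) = fun x => f x + g x := by
    funext x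
    have := hfg x
    rw [min_eq_left (by omega)]
  rw [h2] at h1
  exact h1

lemma S_nonneg (h : FAP m) (L : ℕ) (f : X → ℕ) : 0 ≤ S m L f :=
  Finset.sum_nonneg fun k _ => h.nonneg _

lemma S_le (h : FAP m) (L : ℕ) (f : X → ℕ) : S m L f ≤ L := by
  unfold S
  calc ∑ k ∈ Finset.range L, m {x | k < f x} ≤ ∑ k ∈ Finset.range L, (1 : ℝ) :=
        Finset.sum_le_sum fun k _ => h.le_one _
    _ = L := by simp

lemma S_const (h : FAP m) (L r : ℕ) (hr : r ≤ L) : S m L (fun _ => r) = r := by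
  unfold S
  have h1 : ∀ k ∈ Finset.range L, m {x : X | k < r} = if k < r then 1 else 0 := by
    intro k _
    split_ifs with hk
    · rw [show {x : X | k < r} = Set.univ from eq_univ_of_forall fun x => hk, h.univ]
    · rw [show {x : X | k < r} = ∅ from eq_empty_of_forall_notMem fun x hx => hk hx, h.empty]
  rw [Finset.sum_congr rfl h1, ← Finset.sum_filter, Finset.sum_const, nsmul_eq_mul, mul_one]
  congr 1
  have : (Finset.range L).filter (fun k => k < r) = Finset.range r := by
    ext k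
    simp only [Finset.mem_filter, Finset.mem_range]
    omega
  rw [this, Finset.card_range]

/-- the `n`-th approximation of the integral of `φ : X → [0,1]` -/
noncomputable def s (m : Set X → ℝ) (φ : X → ℝ) (n : ℕ) : ℝ :=
  S m (2 * n + 2) (fun x => ⌊(n : ℝ) * φ x⌋₊) / n

lemma s_mem (h : FAP m) (φ : X → ℝ) (n : ℕ) : s m φ n ∈ Icc (0 : ℝ) 4 := by
  unfold s
  rcases Nat.eq_zero_or_pos n with rfl | hn
  · simp
  · have hn' : (0 : ℝ) < n := Nat.cast_pos.2 hn
    refine ⟨div_nonneg (S_nonneg h _ _) hn'.le, ?_⟩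
    rw [div_le_iff₀ hn']
    refine (S_le h _ _).trans ?_
    push_cast
    have : (1 : ℝ) ≤ n := by exact_mod_cast hn
    linarith

lemma exists_lim (h : FAP m) (φ : X → ℝ) :
    ∃ y, Tendsto (s m φ) (hyperfilter ℕ : Filter ℕ) (𝓝 y) := by
  have h1 : (↑((hyperfilter ℕ).map (s m φ)) : Filter ℝ) ≤ 𝓟 (Icc (0 : ℝ) 4) := by
    rw [le_principal_iff, Ultrafilter.mem_coe, Ultrafilter.mem_map]
    exact Filter.univ_mem' fun n => s_mem h φ n
  obtain ⟨y, _, hy⟩ := isCompact_Icc.ultrafilter_le_nhds _ h1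
  exact ⟨y, hy⟩

/-- the integral -/
noncomputable def J (h : FAP m) (φ : X → ℝ) : ℝ := (exists_lim h φ).choose

lemma J_spec (h : FAP m) (φ : X → ℝ) :
    Tendsto (s m φ) (hyperfilter ℕ : Filter ℕ) (𝓝 (J h φ)) := (exists_lim h φ).choose_spec

lemma hyp_le : (hyperfilter ℕ : Filter ℕ) ≤ atTop := Nat.hyperfilter_le_atTop

lemma J_eq (h : FAP m) (φ : X → ℝ) (y : ℝ) (hy : Tendsto (s m φ) atTop (𝓝 y)) : J h φ = y :=
  tendsto_nhds_unique (J_spec h φ) (hy.mono_left hyp_le)

lemma J_nonneg (h : FAP m) (φ : X → ℝ) : 0 ≤ J h φ :=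
  ge_of_tendsto (J_spec h φ) (Eventually.of_forall fun n => (s_mem h φ n).1)

lemma J_const (h : FAP m) (t : ℝ) (ht0 : 0 ≤ t) (ht1 : t ≤ 1) : J h (fun _ => t) = t := by
  apply J_eq
  have h1 : ∀ n : ℕ, s m (fun _ => t) n = (⌊(n : ℝ) * t⌋₊ : ℝ) / n := by
    intro n
    unfold s
    rw [S_const h]
    have h2 : ⌊(n : ℝ) * t⌋₊ ≤ n := by
      apply Nat.floor_le_of_le
      nlinarith [Nat.cast_nonneg (α := ℝ) n]
    omega
  have h2 : Tendsto (fun n : ℕ => (⌊t * (n : ℝ)⌋₊ : ℝ) / n) atTop (𝓝 t) :=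
    (tendsto_nat_floor_mul_div_atTop (R := ℝ) ht0).comp tendsto_natCast_atTop_atTop
  refine h2.congr fun n => ?_
  rw [h1, mul_comm]

lemma J_add (h : FAP m) (φ ψ : X → ℝ) (hφ : ∀ x, 0 ≤ φ x) (hψ : ∀ x, 0 ≤ ψ x)
    (hs : ∀ x, φ x + ψ x ≤ 1) : J h (fun x => φ x + ψ x) = J h φ + J h ψ := by
  have h1 : ∀ n : ℕ, 1 ≤ n → |s m (fun x => φ x + ψ x) n - (s m φ n + s m ψ n)| ≤ 1 / n := by
    intro n hn
    have hn' : (0 : ℝ) < n := by exact_mod_cast hn
    set f : X → ℕ := fun x => ⌊(n : ℝ) * φ x⌋₊ with hf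
    set g : X → ℕ := fun x => ⌊(n : ℝ) * ψ x⌋₊ with hg
    set q : X → ℕ := fun x => ⌊(n : ℝ) * (φ x + ψ x)⌋₊ with hq
    have hfl : ∀ x, f x + g x ≤ n := by
      intro x
      have e1 : (f x : ℝ) ≤ n * φ x := Nat.floor_le (mul_nonneg hn'.le (hφ x))
      have e2 : (g x : ℝ) ≤ n * ψ x := Nat.floor_le (mul_nonneg hn'.le (hψ x))
      have e3 : (n : ℝ) * (φ x + ψ x) ≤ n * 1 := mul_le_mul_of_nonneg_left (hs x) hn'.le
      have : ((f x + g x : ℕ) : ℝ) ≤ n := by push_cast; linarith
      exact_mod_cast this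
    have hB : ∀ x, (x ∈ {x | q x ≠ f x + g x} → q x = f x + g x + 1) ∧
        (x ∉ {x | q x ≠ f x + g x} → q x = f x + g x) := by
      intro x
      have e1 : (f x : ℝ) ≤ n * φ x := Nat.floor_le (mul_nonneg hn'.le (hφ x))
      have e2 : (g x : ℝ) ≤ n * ψ x := Nat.floor_le (mul_nonneg hn'.le (hψ x))
      have e3 : (n : ℝ) * φ x < f x + 1 := Nat.lt_floor_add_one _
      have e4 : (n : ℝ) * ψ x < g x + 1 := Nat.lt_floor_add_one _
      have e5 : f x + g x ≤ q x := by
        apply Nat.le_floor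
        push_cast
        rw [mul_add]
        linarith
      have e6 : q x < f x + g x + 2 := by
        have : (q x : ℝ) ≤ n * (φ x + ψ x) :=
          Nat.floor_le (mul_nonneg hn'.le (add_nonneg (hφ x) (hψ x)))
        have : (q x : ℝ) < ((f x + g x + 2 : ℕ) : ℝ) := by
          push_cast
          rw [mul_add] at this
          linarith
        exact_mod_cast this
      constructor
      · intro hx
        have hx : q x ≠ f x + g x := hx
        omega
      · intro hx
        by_contra h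
        exact hx h
    have h2 := S_add_ind h (2 * n + 2) (fun x => f x + g x) q {x | q x ≠ f x + g x}
      (fun x => by have := hfl x; omega) hB
    rw [S_add h (2 * n + 2) f g (fun x => by have := hfl x; omega)] at h2
    have h3 : s m (fun x => φ x + ψ x) n - (s m φ n + s m ψ n) =
        m {x | q x ≠ f x + g x} / n := by
      unfold s
      rw [← hf, ← hg, ← hq, h2]
      ring
    rw [h3, abs_of_nonneg (div_nonneg (h.nonneg _) hn'.le)]
    exact div_le_div_of_nonneg_right (h.le_one _) hn'.le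
  have h2 : Tendsto (fun n => s m (fun x => φ x + ψ x) n - (s m φ n + s m ψ n))
      (hyperfilter ℕ : Filter ℕ) (𝓝 0) := by
    rw [tendsto_zero_iff_abs_tendsto_zero]
    refine squeeze_zero' (Eventually.of_forall fun n => abs_nonneg _)
      (hyp_le (eventually_atTop.2 ⟨1, fun n hn => h1 n hn⟩)) ?_
    exact tendsto_one_div_atTop_nhds_zero_nat.mono_left hyp_le
  have h3 := (J_spec h (fun x => φ x + ψ x)).sub ((J_spec h φ).add (J_spec h ψ))
  have h4 := tendsto_nhds_unique h2 h3
  linarith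

variable {Γ : Type*} [Group Γ]

lemma J_inv {m : Set Γ → ℝ} (h : FAP m) (hL : ∀ (g : Γ) (A : Set Γ), m {x | g * x ∈ A} = m A)
    (φ : Γ → ℝ) (g : Γ) : J h (fun x => φ (g * x)) = J h φ := by
  have h1 : s m (fun x => φ (g * x)) = s m φ := by
    funext n
    unfold s S
    congr 1
    apply Finset.sum_congr rfl
    intro k _
    exact hL g {x | k < ⌊(n : ℝ) * φ x⌋₊}
  exact tendsto_nhds_unique (J_spec h _) (h1 ▸ J_spec h φ)

/-- a left invariant mean on a normal subgroup -/
lemma exists_mean {N : Subgroup Γ} {m : Set Γ → ℝ} (h : FAP m) (hL : LInv N m) :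
    ∃ ν : Set N → ℝ, FAP ν ∧ ∀ (g : N) (A : Set N), ν {x | g * x ∈ A} = ν A := by
  let r : Setoid Γ := QuotientGroup.rightRel N
  have hr : ∀ x : Γ, x * (Quotient.out (Quotient.mk r x))⁻¹ ∈ N := by
    intro x
    have : r (Quotient.out (Quotient.mk r x)) x := Quotient.mk_out x
    exact QuotientGroup.rightRel_apply.1 this
  let π : Γ → N := fun x => ⟨x * (Quotient.out (Quotient.mk r x))⁻¹, hr x⟩
  have hπ : ∀ (n : N) (x : Γ), π ((n : Γ) * x) = n * π x := by
    intro n x
    apply Subtype.ext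
    have h1 : Quotient.mk r ((n : Γ) * x) = Quotient.mk r x := by
      apply Quotient.sound
      show r ((n : Γ) * x) x
      refine QuotientGroup.rightRel_apply.2 ?_
      have : x * ((n : Γ) * x)⁻¹ = (n : Γ)⁻¹ := by group
      rw [this]
      exact N.inv_mem n.2
    show (n : Γ) * x * (Quotient.out (Quotient.mk r ((n : Γ) * x)))⁻¹ =
      (n : Γ) * (x * (Quotient.out (Quotient.mk r x))⁻¹)
    rw [h1, mul_assoc]
  refine ⟨fun B => m {x | π x ∈ B}, ⟨fun A => h.nonneg _, ?_, ?_⟩, ?_⟩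
  · show m {x | π x ∈ (Set.univ : Set N)} = 1
    rw [← h.univ]; congr 1
  · intro A B hAB
    show m {x | π x ∈ A ∪ B} = _
    rw [← h.add]
    · congr 1
    · rw [disjoint_left]
      intro x h1 h2
      exact disjoint_left.1 hAB h1 h2
  · intro g A
    show m {x | g * π x ∈ A} = m {x | π x ∈ A}
    rw [← hL g g.2 {x | π x ∈ A}]
    congr 1
    ext x
    show g * π x ∈ A ↔ π ((g : Γ) * x) ∈ A
    rw [hπ]

/-- a mean invariant on both sides which gives the same value to conjugation invariant sets -/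
theorem two_sided {N : Subgroup Γ} {m : Set Γ → ℝ} (h : FAP m) (hL : LInv N m) :
    ∃ m₂ : Set Γ → ℝ, FAP m₂ ∧ LInv N m₂ ∧ RInv N m₂ ∧
      ∀ A : Set Γ, (∀ x ∈ A, ∀ g ∈ N, g * x * g⁻¹ ∈ A) → m₂ A = m A := by
  obtain ⟨ν, hν, hνL⟩ := exists_mean h hL
  refine ⟨fun A => J hν (fun g => m {x | x * (g : Γ)⁻¹ ∈ A}), ⟨?_, ?_, ?_⟩, ?_, ?_, ?_⟩
  · intro A; exact J_nonneg hν _
  · have : (fun g : N => m {x | x * (g : Γ)⁻¹ ∈ (Set.univ : Set Γ)}) = fun _ => 1 := by
      funext g
      rw [← h.univ]; congr 1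
    show J hν (fun g : N => m {x | x * (g : Γ)⁻¹ ∈ (Set.univ : Set Γ)}) = 1
    rw [this]
    exact J_const hν 1 zero_le_one le_rfl
  · intro A B hAB
    have e : ∀ g : N, m {x | x * (g : Γ)⁻¹ ∈ A ∪ B} =
        m {x | x * (g : Γ)⁻¹ ∈ A} + m {x | x * (g : Γ)⁻¹ ∈ B} := by
      intro g
      rw [← h.add]
      · congr 1
      · rw [disjoint_left]
        intro x h1 h2
        exact disjoint_left.1 hAB h1 h2
    show J hν (fun g : N => m {x | x * (g : Γ)⁻¹ ∈ A ∪ B}) = _
    simp only [e]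
    apply J_add hν _ _ (fun _ => h.nonneg _) (fun _ => h.nonneg _)
    intro g
    rw [← e]
    exact h.le_one _
  · intro g hg A
    show J hν (fun y => m {x | x * (y : Γ)⁻¹ ∈ {x | g * x ∈ A}}) =
      J hν (fun y => m {x | x * (y : Γ)⁻¹ ∈ A})
    congr 1
    funext y
    rw [← hL g hg {x | x * (y : Γ)⁻¹ ∈ A}]
    congr 1
    ext x
    show g * (x * (y : Γ)⁻¹) ∈ A ↔ g * x * (y : Γ)⁻¹ ∈ A
    rw [mul_assoc]
  · intro g hg A
    show J hν (fun y => m {x | x * (y : Γ)⁻¹ ∈ {x | x * g ∈ A}}) =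
      J hν (fun y => m {x | x * (y : Γ)⁻¹ ∈ A})
    rw [← J_inv hν hνL (fun y => m {x | x * (y : Γ)⁻¹ ∈ A}) ⟨g, hg⟩⁻¹]
    congr 1
    funext y
    congr 1
    ext x
    show x * (y : Γ)⁻¹ * g ∈ A ↔ x * (((⟨g, hg⟩⁻¹ : N) * y : N) : Γ)⁻¹ ∈ A
    rw [Subgroup.coe_mul, Subgroup.coe_inv, mul_inv_rev, inv_inv, mul_assoc]
  · intro A hA
    have e : (fun g : N => m {x | x * (g : Γ)⁻¹ ∈ A}) = fun _ => m A := by
      funext g
      rw [← hL (g : Γ)⁻¹ (N.inv_mem g.2) A]
      congr 1
      ext x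
      show x * (g : Γ)⁻¹ ∈ A ↔ (g : Γ)⁻¹ * x ∈ A
      constructor
      · intro hx
        have := hA _ hx (g : Γ)⁻¹ (N.inv_mem g.2)
        convert this using 1
        group
      · intro hx
        have := hA _ hx g g.2
        convert this using 1
        group
    show J hν (fun g : N => m {x | x * (g : Γ)⁻¹ ∈ A}) = m A
    rw [e]
    exact J_const hν _ (h.nonneg _) (h.le_one _)

end Pool.Agent.H52A
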