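import Mathlib

/-!
Finitely additive probabilities on all subsets, pigeonhole, elements with few conjugates,
maximal finite commuting sets.
-/

set_option autoImplicit false

namespace Pool.Agent.H52A

open Set

/-- `m` is a finitely additive probability on all subsets of `X`. -/
structure FAP {X : Type*} (m : Set X → ℝ) : Prop where
  nonneg : ∀ A, 0 ≤ m A
  univ : m Set.univ = 1
  add : ∀ A B, Disjoint A B → m (A ∪ B) = m A + m B

namespace FAP

variable {X : Type*} {m : Set X → ℝ}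

lemma empty (h : FAP m) : m ∅ = 0 := by
  have h1 := h.add ∅ ∅ (by simp)
  simp only [Set.union_self] at h1
  linarith

lemma mono (h : FAP m) {A B : Set X} (hAB : A ⊆ B) : m A ≤ m B := by
  have h1 := h.add A (B \ A) disjoint_sdiff_right
  rw [union_sdiff_cancel hAB] at h1
  have h2 := h.nonneg (B \ A)
  linarith

lemma le_one (h : FAP m) (A : Set X) : m A ≤ 1 := by
  rw [← h.univ]; exact h.mono (subset_univ A)

lemma union_add_inter (h : FAP m) (A B : Set X) : m (A ∪ B) + m (A ∩ B) = m A + m B := by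
  have h1 := h.add A (B \ A) disjoint_sdiff_right
  rw [union_sdiff_self] at h1
  have h2 := h.add (A ∩ B) (B \ A)
    (disjoint_left.2 fun x hx hy => hy.2 hx.1)
  have h3 : A ∩ B ∪ B \ A = B := by
    ext x; constructor
    · rintro (⟨_, h⟩ | ⟨h, _⟩) <;> exact h
    · intro hx
      by_cases hA : x ∈ A
      · exact Or.inl ⟨hA, hx⟩
      · exact Or.inr ⟨hx, hA⟩
  rw [h3] at h2
  linarith

lemma union_le (h : FAP m) (A B : Set X) : m (A ∪ B) ≤ m A + m B := by
  have h1 := h.union_add_inter A B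
  have h2 := h.nonneg (A ∩ B)
  linarith

lemma nonempty (h : FAP m) {A : Set X} (hA : 0 < m A) : A.Nonempty := by
  rcases A.eq_empty_or_nonempty with h0 | h0
  · rw [h0, h.empty] at hA; exact absurd hA (lt_irrefl _)
  · exact h0

/-- a finite cover of a set of positive mean has a member of positive mean -/
lemma exists_pos_of_cover (h : FAP m) {ι : Type*} (K : Set ι) (hK : K.Finite) (B : ι → Set X)
    (A : Set X) (hA : 0 < m A) (hcov : ∀ x ∈ A, ∃ k ∈ K, x ∈ B k) : ∃ k ∈ K, 0 < m (B k) := by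
  by_contra hcon
  push Not at hcon
  have key : ∀ s : Finset ι, (∀ k ∈ s, m (B k) = 0) → m (⋃ k ∈ s, B k) = 0 := by
    classical
    intro s
    induction s using Finset.induction_on with
    | empty => intro _; simpa using h.empty
    | insert a s ha ih =>
      intro hs
      rw [Finset.set_biUnion_insert]
      have h1 := ih fun k hk => hs k (Finset.mem_insert_of_mem hk)
      have h2 := hs a (Finset.mem_insert_self a s)
      have h3 := h.union_le (B a) (⋃ k ∈ s, B k)
      have h4 := h.nonneg (B a ∪ ⋃ k ∈ s, B k)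
      linarith
  have h1 := key hK.toFinset fun k hk => le_antisymm (hcon k (hK.mem_toFinset.1 hk)) (h.nonneg _)
  have h2 : A ⊆ ⋃ k ∈ hK.toFinset, B k := by
    intro x hx
    obtain ⟨k, hk, hxk⟩ := hcov x hx
    exact mem_biUnion (hK.mem_toFinset.2 hk) hxk
  have h3 := h.mono h2
  linarith

/-- pigeonhole: infinitely many sets of the same positive mean cannot be pairwise almost disjoint -/
lemma exists_inter (h : FAP m) (A : ℕ → Set X) (δ : ℝ) (hδ : 0 < δ) (hA : ∀ i, m (A i) = δ) :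
    ∃ i j, i < j ∧ 0 < m (A i ∩ A j) := by
  by_contra hcon
  push Not at hcon
  have h0 : ∀ i j, i < j → m (A i ∩ A j) = 0 := fun i j hij =>
    le_antisymm (hcon i j hij) (h.nonneg _)
  have key : ∀ n : ℕ, m (⋃ i ∈ Finset.range n, A i) = n * δ := by
    intro n
    induction n with
    | zero => simpa using h.empty
    | succ n ih =>
      rw [Finset.range_add_one, Finset.set_biUnion_insert]
      have h1 := h.union_add_inter (A n) (⋃ i ∈ Finset.range n, A i)
      have h2 : m (A n ∩ ⋃ i ∈ Finset.range n, A i) = 0 := by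
        by_contra hne
        have hpos : 0 < m (A n ∩ ⋃ i ∈ Finset.range n, A i) :=
          lt_of_le_of_ne (h.nonneg _) (Ne.symm hne)
        obtain ⟨k, hk, hk2⟩ := h.exists_pos_of_cover (↑(Finset.range n) : Set ℕ)
          (Finset.finite_toSet _) (fun i => A i ∩ A n) _ hpos (by
            rintro x ⟨hx1, hx2⟩
            rw [mem_iUnion₂] at hx2
            obtain ⟨i, hi, hxi⟩ := hx2
            exact ⟨i, Finset.mem_coe.2 hi, hxi, hx1⟩)
        rw [Finset.mem_coe, Finset.mem_range] at hk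
        rw [h0 k n hk] at hk2
        exact lt_irrefl _ hk2
      rw [h2, ih, hA n] at h1
      push_cast
      linarith
  obtain ⟨n, hn⟩ := exists_nat_gt (1 / δ)
  have h1 := key n
  have h2 := h.le_one (⋃ i ∈ Finset.range n, A i)
  rw [h1] at h2
  rw [div_lt_iff₀ hδ] at hn
  linarith

end FAP

variable {Γ : Type*} [Group Γ]

/-- pairwise commuting elements -/
def Cmt (S : Set Γ) : Prop := ∀ x ∈ S, ∀ y ∈ S, x * y = y * x

/-- `N` contains no infinite set of pairwise commuting elements -/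
def NoInf (N : Subgroup Γ) : Prop := ∀ S : Set Γ, S ⊆ (N : Set Γ) → Cmt S → S.Finite

lemma NoInf.mono {N C : Subgroup Γ} (h : NoInf N) (hC : C ≤ N) : NoInf C :=
  fun S hS hc => h S (fun x hx => hC (hS hx)) hc

/-- maximality principle -/
lemma exists_max {N : Subgroup Γ} (hN : NoInf N) (P : Finset Γ → Prop)
    (hP : ∀ F, P F → (↑F : Set Γ) ⊆ (N : Set Γ) ∧ Cmt (↑F : Set Γ)) (F₀ : Finset Γ) (h0 : P F₀) :
    ∃ F, P F ∧ ∀ F' : Finset Γ, F ⊂ F' → ¬ P F' := by
  classical
  by_contra hcon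
  push Not at hcon
  choose! s hs1 hs2 using hcon
  let f : ℕ → Finset Γ := fun n => s^[n] F₀
  have hf : ∀ n, P (f n) := by
    intro n
    induction n with
    | zero => exact h0
    | succ n ih =>
      simp only [f, Function.iterate_succ_apply']
      exact hs2 _ ih
  have hstep : ∀ n, f n < f (n + 1) := by
    intro n
    simp only [f, Function.iterate_succ_apply']
    exact hs1 _ (hf n)
  have hmono : StrictMono f := strictMono_nat_of_lt_succ hstep
  have hS : (⋃ n, (f n : Set Γ)).Finite := by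
    apply hN
    · exact iUnion_subset fun n => (hP _ (hf n)).1
    · intro x hx y hy
      rw [mem_iUnion] at hx hy
      obtain ⟨i, hi⟩ := hx
      obtain ⟨j, hj⟩ := hy
      have h1 : x ∈ (f (max i j) : Set Γ) := hmono.monotone (le_max_left i j) hi
      have h2 : y ∈ (f (max i j) : Set Γ) := hmono.monotone (le_max_right i j) hj
      exact (hP _ (hf _)).2 x h1 y h2
  have hcard : ∀ n, (f n).card ≤ hS.toFinset.card := by
    intro n
    apply Finset.card_le_card
    intro x hx
    rw [hS.mem_toFinset]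
    exact mem_iUnion.2 ⟨n, hx⟩
  have hcm : StrictMono fun n => (f n).card := fun i j hij => Finset.card_lt_card (hmono hij)
  have h1 := hcm.id_le (hS.toFinset.card + 1)
  have h2 := hcard (hS.toFinset.card + 1)
  simp only [id] at h1
  omega

/-- the set of conjugates of `u` by elements of `C` -/
def cj (C : Subgroup Γ) (u : Γ) : Set Γ := {y | ∃ g ∈ C, y = g * u * g⁻¹}

/-- the elements having only finitely many conjugates under `C` -/
def fc (C : Subgroup Γ) : Subgroup Γ where
  carrier := {u | (cj C u).Finite}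
  one_mem' := by
    apply (finite_singleton (1 : Γ)).subset
    rintro y ⟨g, _, rfl⟩
    simp
  mul_mem' := by
    intro u v hu hv
    apply (Finite.image2 (fun x y => x * y) hu hv).subset
    rintro y ⟨g, hg, rfl⟩
    exact ⟨g * u * g⁻¹, ⟨g, hg, rfl⟩, g * v * g⁻¹, ⟨g, hg, rfl⟩, by group⟩
  inv_mem' := by
    intro u hu
    apply (Finite.image (fun x => x⁻¹) hu).subset
    rintro y ⟨g, hg, rfl⟩
    exact ⟨g * u * g⁻¹, ⟨g, hg, rfl⟩, by group⟩

lemma mem_fc {C : Subgroup Γ} {u : Γ} : u ∈ fc C ↔ (cj C u).Finite := Iff.rfl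

lemma fc_conj {N : Subgroup Γ} (hN : N.Normal) {u : Γ} (hu : u ∈ fc N) (y : Γ) :
    y * u * y⁻¹ ∈ fc N := by
  rw [mem_fc] at hu ⊢
  apply (Finite.image (fun x => y * x * y⁻¹) hu).subset
  rintro z ⟨g, hg, rfl⟩
  refine ⟨(y⁻¹ * g * y) * u * (y⁻¹ * g * y)⁻¹, ⟨y⁻¹ * g * y, ?_, rfl⟩, by group⟩
  have := hN.conj_mem g hg y⁻¹
  simpa using this

/-- if the elements of `D ≤ C` commuting with a finite subset of `fc C` are finite in number, so is `D` -/
lemma finite_of_fc {C D : Subgroup Γ} (hDC : D ≤ C) (F : Finset Γ) (hF : ∀ f ∈ F, f ∈ fc C)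
    (hK : {k | k ∈ D ∧ ∀ f ∈ F, k * f = f * k}.Finite) : (D : Set Γ).Finite := by
  classical
  let Φ : Γ → (F → Γ) := fun ρ f => ρ * f * ρ⁻¹
  refine Set.Finite.of_finite_fibers Φ ?_ ?_
  · have : (Set.pi Set.univ fun f : F => cj C (f : Γ)).Finite :=
      Set.Finite.pi fun f => hF f f.2
    apply this.subset
    rintro _ ⟨ρ, hρ, rfl⟩ f _
    exact ⟨ρ, hDC hρ, rfl⟩
  · rintro _ ⟨ρ, hρ, rfl⟩
    apply (Finite.image (fun k => ρ * k) hK).subset
    rintro σ ⟨hσ, hσ2⟩
    refine ⟨ρ⁻¹ * σ, ⟨D.mul_mem (D.inv_mem hρ) hσ, ?_⟩, by group⟩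
    intro f hf
    have h1 := congrFun hσ2 ⟨f, hf⟩
    simp only [Φ] at h1
    have h2 : σ * f * σ⁻¹ = ρ * f * ρ⁻¹ := h1
    calc ρ⁻¹ * σ * f = ρ⁻¹ * (σ * f * σ⁻¹) * σ := by group
      _ = ρ⁻¹ * (ρ * f * ρ⁻¹) * σ := by rw [h2]
      _ = f * (ρ⁻¹ * σ) := by group

/-- without infinite commuting subsets the FC-centre is finite -/
lemma fc_finite {C : Subgroup Γ} (hC : NoInf C) : ((fc C ⊓ C : Subgroup Γ) : Set Γ).Finite := by
  classical
  set D : Subgroup Γ := fc C ⊓ C with hD
  have hDC : D ≤ C := inf_le_right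
  obtain ⟨F, ⟨hF1, hF2⟩, hF3⟩ := exists_max hC
    (fun F => (↑F : Set Γ) ⊆ (D : Set Γ) ∧ Cmt (↑F : Set Γ))
    (fun F hF => ⟨fun x hx => hDC (hF.1 hx), hF.2⟩) ∅ (by
      refine ⟨by simp, ?_⟩
      intro x hx
      simp at hx)
  apply finite_of_fc hDC F (fun f hf => (hF1 hf).1)
  apply F.finite_toSet.subset
  rintro k ⟨hk1, hk2⟩
  by_contra hk3
  apply hF3 (insert k F) (Finset.ssubset_insert hk3)
  refine ⟨?_, ?_⟩
  · intro x hx
    rw [Finset.coe_insert] at hx
    rcases hx with rfl | hx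
    · exact hk1
    · exact hF1 hx
  · intro x hx y hy
    rw [Finset.coe_insert] at hx hy
    rcases hx with rfl | hx
    · rcases hy with rfl | hy
      · rfl
      · exact hk2 y hy
    · rcases hy with rfl | hy
      · exact (hk2 x hx).symm
      · exact hF2 x hx y hy

/-- an infinite subgroup without infinite commuting subsets contains infinitely many elements
whose quotients all have infinitely many conjugates -/
lemma exists_seq {C : Subgroup Γ} (hC : NoInf C) (hinf : (C : Set Γ).Infinite) :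
    ∃ g : ℕ → Γ, (∀ n, g n ∈ C) ∧ ∀ i j, i < j → (g i)⁻¹ * g j ∉ fc C := by
  classical
  have hfin := fc_finite hC
  obtain ⟨f, hf1, hf2⟩ := exists_seq_of_forall_finset_exists (fun x => x ∈ C)
    (fun x y => x⁻¹ * y ∉ fc C) (by
      intro s hs
      by_contra hcon
      push Not at hcon
      apply hinf
      apply (Finite.image2 (fun x y => x * y) s.finite_toSet hfin).subset
      intro y hy
      obtain ⟨x, hx, hxy⟩ := hcon y hy
      exact ⟨x, hx, x⁻¹ * y, ⟨hxy, C.mul_mem (C.inv_mem (hs x hx)) hy⟩, by group⟩)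
  exact ⟨f, hf1, hf2⟩

/-- invariance under left translations by the elements of `N` -/
def LInv (N : Subgroup Γ) (m : Set Γ → ℝ) : Prop := ∀ g ∈ N, ∀ A : Set Γ, m {x | g * x ∈ A} = m A

/-- invariance under right translations by the elements of `N` -/
def RInv (N : Subgroup Γ) (m : Set Γ → ℝ) : Prop := ∀ g ∈ N, ∀ A : Set Γ, m {x | x * g ∈ A} = m A

lemma insertL {N : Subgroup Γ} {m : Set Γ → ℝ} (hm : FAP m) (hL : LInv N m) (A : Set Γ)
    (hA : 0 < m A) (g : ℕ → Γ) (hg : ∀ n, g n ∈ N) :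
    ∃ i j, i < j ∧ 0 < m {x | x ∈ A ∧ g j * (g i)⁻¹ * x ∈ A} := by
  obtain ⟨i, j, hij, h⟩ := hm.exists_inter (fun i => {x | g i * x ∈ A}) (m A) hA
    (fun i => hL _ (hg i) A)
  refine ⟨i, j, hij, ?_⟩
  have h1 := hL (g i) (hg i) {x | x ∈ A ∧ g j * (g i)⁻¹ * x ∈ A}
  rw [← h1]
  convert h using 2
  ext x
  simp only [mem_ofPred_eq, mem_inter_iff]
  rw [show g j * (g i)⁻¹ * (g i * x) = g j * x by group]

lemma insertR {N : Subgroup Γ} {m : Set Γ → ℝ} (hm : FAP m) (hR : RInv N m) (A : Set Γ)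
    (hA : 0 < m A) (g : ℕ → Γ) (hg : ∀ n, g n ∈ N) :
    ∃ i j, i < j ∧ 0 < m {x | x ∈ A ∧ x * ((g i)⁻¹ * g j) ∈ A} := by
  obtain ⟨i, j, hij, h⟩ := hm.exists_inter (fun i => {x | x * g i ∈ A}) (m A) hA
    (fun i => hR _ (hg i) A)
  refine ⟨i, j, hij, ?_⟩
  have h1 := hR (g i) (hg i) {x | x ∈ A ∧ x * ((g i)⁻¹ * g j) ∈ A}
  rw [← h1]
  convert h using 2
  ext x
  simp only [mem_ofPred_eq, mem_inter_iff]
  rw [show x * g i * ((g i)⁻¹ * g j) = x * g j by group]

/-- if `x z x⁻¹` is constant on a set of positive mean then `z` has finitely many conjugates -/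
lemma fc_of_const {N : Subgroup Γ} (hN : N.Normal) {m : Set Γ → ℝ} (hm : FAP m) (hL : LInv N m)
    (z k : Γ) (h : 0 < m {x | x * z * x⁻¹ = k}) : z ∈ fc N := by
  obtain ⟨x₀, hx₀⟩ := hm.nonempty h
  have hk : k ∈ fc N := by
    rw [mem_fc]
    by_contra hcon
    have hinf : (cj N k).Infinite := hcon
    have := hinf.to_subtype
    let e := Infinite.natEmbedding (cj N k)
    have he : ∀ i, ∃ g ∈ N, (e i : Γ) = g * k * g⁻¹ := fun i => (e i).2
    choose g hg1 hg2 using he
    obtain ⟨i, j, hij, hpos⟩ := hm.exists_inter (fun i => {x | (g i)⁻¹ * x ∈ {x | x * z * x⁻¹ = k}})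
      _ h (fun i => hL _ (N.inv_mem (hg1 i)) _)
    obtain ⟨x, hx1, hx2⟩ := hm.nonempty hpos
    simp only [mem_ofPred_eq] at hx1 hx2
    have h1 : (e i : Γ) = x * z * x⁻¹ := by
      rw [hg2, ← hx1]; group
    have h2 : (e j : Γ) = x * z * x⁻¹ := by
      rw [hg2, ← hx2]; group
    have h3 : e i = e j := Subtype.ext (h1.trans h2.symm)
    exact absurd (e.injective h3) (ne_of_lt hij)
  have h1 := fc_conj hN hk x₀⁻¹
  rw [mem_ofPred_eq] at hx₀
  rw [← hx₀] at h1
  convert h1 using 1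
  group

end Pool.Agent.H52A
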