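import Pool.Agent.Lib.H52A.Cubic
import Pool.Agent.Lib.H52A.Avg

/-!
`x³ = c` with a mean which is only left invariant; all sign patterns; the subgroup.
-/

set_option autoImplicit false

namespace Pool.Agent.H52A

open Set

variable {Γ : Type*} [Group Γ]

/-- Left invariance suffices for `x ^ 3 = c`. -/
theorem cube {N : Subgroup Γ} (hN : N.Normal) (hNoInf : NoInf N) (hinf : (N : Set Γ).Infinite)
    {m : Set Γ → ℝ} (hm : FAP m) (hL : LInv N m) (c : Γ) : ¬ 0 < m {x | x ^ 3 = c} := by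
  classical
  intro hpos
  set K : Subgroup Γ := Subgroup.centralizer {c} with hK
  have hmemK : ∀ x : Γ, x ∈ K ↔ c * x = x * c := by
    intro x
    rw [hK, Subgroup.mem_centralizer_iff]
    simp
  have hTK : {x : Γ | x ^ 3 = c} ⊆ (K : Set Γ) := by
    intro x hx
    have hx : x ^ 3 = c := hx
    refine (hmemK x).2 ?_
    rw [← hx, ← pow_succ, ← pow_succ']
  have hKpos : 0 < m (K : Set Γ) := lt_of_lt_of_le hpos (hm.mono hTK)
  -- the mean on `K`
  let m' : Set K → ℝ := fun A => m (Subtype.val '' A) / m (K : Set Γ)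
  have hm' : FAP m' := by
    refine ⟨fun A => div_nonneg (hm.nonneg _) hKpos.le, ?_, ?_⟩
    · show m (Subtype.val '' (Set.univ : Set K)) / m (K : Set Γ) = 1
      rw [image_univ, Subtype.range_coe]
      exact div_self hKpos.ne'
    · intro A B hAB
      show m (Subtype.val '' (A ∪ B)) / m (K : Set Γ) = _
      rw [image_union, hm.add, add_div]
      exact (disjoint_image_iff Subtype.val_injective).2 hAB
  let N' : Subgroup K := N.subgroupOf K
  have hN' : N'.Normal := inferInstanceAs (N.subgroupOf K).Normal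
  have hL' : LInv N' m' := by
    intro g hg A
    have hg : (g : Γ) ∈ N := hg
    show m (Subtype.val '' {x | g * x ∈ A}) / m (K : Set Γ) = m (Subtype.val '' A) / m (K : Set Γ)
    rw [← hL g hg (Subtype.val '' A)]
    congr 2
    ext x
    constructor
    · rintro ⟨y, hy, rfl⟩
      exact ⟨g * y, hy, rfl⟩
    · rintro ⟨y, hy, hyx⟩
      have : x = ((g⁻¹ * y : K) : Γ) := by
        rw [Subgroup.coe_mul, Subgroup.coe_inv, hyx]; group
      refine ⟨g⁻¹ * y, ?_, this.symm⟩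
      show g * (g⁻¹ * y) ∈ A
      rw [mul_inv_cancel_left]; exact hy
  have hNoInf' : NoInf N' := by
    intro S hS hc
    have h1 : (Subtype.val '' S : Set Γ).Finite := by
      apply hNoInf
      · rintro _ ⟨x, hx, rfl⟩
        exact hS hx
      · rintro _ ⟨x, hx, rfl⟩ _ ⟨y, hy, rfl⟩
        have := hc x hx y hy
        rw [← Subgroup.coe_mul, this, Subgroup.coe_mul]
    exact h1.of_finite_image Subtype.val_injective.injOn
  have hinf' : (N' : Set K).Infinite := by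
    intro hfin
    have hfin2 : ((N ⊓ K : Subgroup Γ) : Set Γ).Finite := by
      apply (hfin.image Subtype.val).subset
      rintro x ⟨hx1, hx2⟩
      exact ⟨⟨x, hx2⟩, hx1, rfl⟩
    obtain ⟨g, hg1, hg2⟩ := exists_seq_of_forall_finset_exists (fun x => x ∈ N)
      (fun x y => x⁻¹ * y ∉ K) (by
        intro s hs
        by_contra hcon
        push Not at hcon
        apply hinf
        apply (Finite.image2 (fun x y => x * y) s.finite_toSet hfin2).subset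
        intro y hy
        obtain ⟨x, hx, hxy⟩ := hcon y hy
        exact ⟨x, hx, x⁻¹ * y, ⟨N.mul_mem (N.inv_mem (hs x hx)) hy, hxy⟩, by group⟩)
    obtain ⟨i, j, hij, hp⟩ := hm.exists_inter (fun i => {x | (g i)⁻¹ * x ∈ (K : Set Γ)}) _ hKpos
      (fun i => hL _ (N.inv_mem (hg1 i)) _)
    obtain ⟨x, hx1, hx2⟩ := hm.nonempty hp
    have hx1 : (g i)⁻¹ * x ∈ K := hx1
    have hx2 : (g j)⁻¹ * x ∈ K := hx2
    apply hg2 i j hij
    have := K.mul_mem hx1 (K.inv_mem hx2)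
    convert this using 1
    group
  obtain ⟨m₂, hm₂, hL₂, hR₂, hcj⟩ := two_sided hm' hL'
  have hcK : c ∈ K := (hmemK c).2 rfl
  have hcomm : ∀ x : K, (⟨c, hcK⟩ : K) * x = x * ⟨c, hcK⟩ := fun x =>
    Subtype.ext ((hmemK x).1 x.2)
  have e1 : (T3 (1 : K) 1 (⟨c, hcK⟩ : K)⁻¹) = {x : K | (x : Γ) ^ 3 = c} := by
    ext x
    show 1 * x * 1 * x * (⟨c, hcK⟩ : K)⁻¹ * x = 1 ↔ (x : Γ) ^ 3 = c
    have h1 : 1 * x * 1 * x * (⟨c, hcK⟩ : K)⁻¹ * x = x ^ 3 * (⟨c, hcK⟩ : K)⁻¹ := by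
      have h2 : (⟨c, hcK⟩ : K)⁻¹ * x = x * (⟨c, hcK⟩ : K)⁻¹ := by
        rw [inv_mul_eq_iff_eq_mul, ← mul_assoc, hcomm, mul_assoc, mul_inv_cancel, mul_one]
      rw [mul_assoc _ _ x, h2, one_mul, mul_one, ← mul_assoc, pow_succ, pow_two]
    rw [h1, mul_inv_eq_one]
    constructor
    · intro h
      have := congrArg Subtype.val h
      simpa using this
    · intro h
      apply Subtype.ext
      simpa using h
  apply bi hN' hNoInf' hinf' hm₂ hL₂ hR₂ 1 1 (⟨c, hcK⟩ : K)⁻¹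
  rw [e1, hcj]
  · show 0 < m (Subtype.val '' {x : K | (x : Γ) ^ 3 = c}) / m (K : Set Γ)
    apply div_pos _ hKpos
    have e2 : Subtype.val '' {x : K | (x : Γ) ^ 3 = c} = {x : Γ | x ^ 3 = c} := by
      ext x
      constructor
      · rintro ⟨y, hy, rfl⟩; exact hy
      · intro hx; exact ⟨⟨x, hTK hx⟩, hx, rfl⟩
    rw [e2]
    exact hpos
  · intro x hx g _
    have hx : (x : Γ) ^ 3 = c := hx
    have hg : c * (g : Γ) = g * c := (hmemK g).1 g.2
    show ((g * x * g⁻¹ : K) : Γ) ^ 3 = c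
    have : ((g * x * g⁻¹ : K) : Γ) ^ 3 = g * (x : Γ) ^ 3 * (g : Γ)⁻¹ := by
      simp only [Subgroup.coe_mul, Subgroup.coe_inv]
      exact conj_pow
    rw [this, hx, ← hg]
    group

/-- equations of length three whose exponents are not all equal: left invariance suffices -/
theorem mixed3 {N : Subgroup Γ} (hN : N.Normal) (hNoInf : NoInf N) (hinf : (N : Set Γ).Infinite)
    {m : Set Γ → ℝ} (hm : FAP m) (hL : LInv N m) (a b c : Γ) (e₁ e₂ e₃ : ℤ)
    (h1 : e₁ = 1 ∨ e₁ = -1) (h2 : e₂ = 1 ∨ e₂ = -1) (h3 : e₃ = 1 ∨ e₃ = -1)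
    (hne : ¬ (e₁ = e₂ ∧ e₂ = e₃)) :
    ¬ 0 < m {x | a * x ^ e₁ * b * x ^ e₂ * c * x ^ e₃ = 1} := by
  have key : ∀ (S : Set Γ) (a b c : Γ), (∀ x, x ∈ S → x * a * x * b * x⁻¹ = c) → ¬ 0 < m S := by
    intro S a b c hS hpos
    exact mixed hN hNoInf hinf hm hL a b c (lt_of_lt_of_le hpos (hm.mono hS))
  rcases h1 with rfl | rfl <;> rcases h2 with rfl | rfl <;> rcases h3 with rfl | rfl
  · exact absurd ⟨rfl, rfl⟩ hne
  · apply key _ b c a⁻¹
    intro x hx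
    have hx : a * x ^ (1 : ℤ) * b * x ^ (1 : ℤ) * c * x ^ (-1 : ℤ) = 1 := hx
    rw [← mul_eq_one_iff_eq_inv', ← hx]; group
  · apply key _ a b c⁻¹
    intro x hx
    have hx : a * x ^ (1 : ℤ) * b * x ^ (-1 : ℤ) * c * x ^ (1 : ℤ) = 1 := hx
    rw [← mul_eq_one_iff_eq_inv]
    calc x * a * x * b * x⁻¹ * c
        = x * (a * x ^ (1 : ℤ) * b * x ^ (-1 : ℤ) * c * x ^ (1 : ℤ)) * x⁻¹ := by group
      _ = 1 := by rw [hx]; group
  · apply key _ c⁻¹ b⁻¹ a
    intro x hx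
    have hx : a * x ^ (1 : ℤ) * b * x ^ (-1 : ℤ) * c * x ^ (-1 : ℤ) = 1 := hx
    calc x * c⁻¹ * x * b⁻¹ * x⁻¹
        = (a * x ^ (1 : ℤ) * b * x ^ (-1 : ℤ) * c * x ^ (-1 : ℤ))⁻¹ * a := by group
      _ = a := by rw [hx]; group
  · apply key _ c a b⁻¹
    intro x hx
    have hx : a * x ^ (-1 : ℤ) * b * x ^ (1 : ℤ) * c * x ^ (1 : ℤ) = 1 := hx
    calc x * c * x * a * x⁻¹
        = (a * x ^ (-1 : ℤ) * b)⁻¹ * (a * x ^ (-1 : ℤ) * b * x ^ (1 : ℤ) * c * x ^ (1 : ℤ)) *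
          (a * x ^ (-1 : ℤ) * b) * b⁻¹ := by group
      _ = b⁻¹ := by rw [hx]; group
  · apply key _ a⁻¹ c⁻¹ b
    intro x hx
    have hx : a * x ^ (-1 : ℤ) * b * x ^ (1 : ℤ) * c * x ^ (-1 : ℤ) = 1 := hx
    calc x * a⁻¹ * x * c⁻¹ * x⁻¹
        = (x * a⁻¹) * (a * x ^ (-1 : ℤ) * b * x ^ (1 : ℤ) * c * x ^ (-1 : ℤ))⁻¹ * 
          (x * a⁻¹)⁻¹ * b := by group
      _ = b := by rw [hx]; group
  · apply key _ b⁻¹ a⁻¹ c
    intro x hx
    have hx : a * x ^ (-1 : ℤ) * b * x ^ (-1 : ℤ) * c * x ^ (1 : ℤ) = 1 := hx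
    calc x * b⁻¹ * x * a⁻¹ * x⁻¹
        = (c * x) * (a * x ^ (-1 : ℤ) * b * x ^ (-1 : ℤ) * c * x ^ (1 : ℤ))⁻¹ * 
          (c * x)⁻¹ * c := by group
      _ = c := by rw [hx]; group
  · exact absurd ⟨rfl, rfl⟩ hne

/-- equations of length three, all signs, for two-sided invariant means -/
theorem all3 {N : Subgroup Γ} (hN : N.Normal) (hNoInf : NoInf N) (hinf : (N : Set Γ).Infinite)
    {m : Set Γ → ℝ} (hm : FAP m) (hL : LInv N m) (hR : RInv N m) (a b c : Γ) (e₁ e₂ e₃ : ℤ)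
    (h1 : e₁ = 1 ∨ e₁ = -1) (h2 : e₂ = 1 ∨ e₂ = -1) (h3 : e₃ = 1 ∨ e₃ = -1) :
    ¬ 0 < m {x | a * x ^ e₁ * b * x ^ e₂ * c * x ^ e₃ = 1} := by
  by_cases hne : e₁ = e₂ ∧ e₂ = e₃
  · obtain ⟨rfl, rfl⟩ := hne
    rcases h1 with rfl | rfl
    · intro hpos
      apply bi hN hNoInf hinf hm hL hR a b c
      refine lt_of_lt_of_le hpos (hm.mono ?_)
      intro x hx
      have hx : a * x ^ (1 : ℤ) * b * x ^ (1 : ℤ) * c * x ^ (1 : ℤ) = 1 := hx
      show a * x * b * x * c * x = 1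
      rw [← hx]; group
    · intro hpos
      apply bi hN hNoInf hinf hm hL hR a⁻¹ c⁻¹ b⁻¹
      refine lt_of_lt_of_le hpos (hm.mono ?_)
      intro x hx
      have hx : a * x ^ (-1 : ℤ) * b * x ^ (-1 : ℤ) * c * x ^ (-1 : ℤ) = 1 := hx
      show a⁻¹ * x * c⁻¹ * x * b⁻¹ * x = 1
      calc a⁻¹ * x * c⁻¹ * x * b⁻¹ * x
          = a⁻¹ * (a * x ^ (-1 : ℤ) * b * x ^ (-1 : ℤ) * c * x ^ (-1 : ℤ))⁻¹ * a := by group
        _ = 1 := by rw [hx]; group
  · exact mixed3 hN hNoInf hinf hm hL a b c e₁ e₂ e₃ h1 h2 h3 hne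

/-- an infinite set of commuting elements generates an infinite abelian subgroup -/
lemma exists_abelian {N : Subgroup Γ} (h : ¬ NoInf N) :
    ∃ H : Subgroup Γ, H ≤ N ∧ (H : Set Γ).Infinite ∧ ∀ x ∈ H, ∀ y ∈ H, x * y = y * x := by
  unfold NoInf at h
  push Not at h
  obtain ⟨S, hS, hc, hinf⟩ := h
  have h1 : Subgroup.closure S ≤ Subgroup.centralizer (Subgroup.centralizer S : Set Γ) :=
    Subgroup.closure_le_centralizer_centralizer S
  have h2 : Subgroup.closure S ≤ Subgroup.centralizer S := by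
    rw [Subgroup.closure_le]
    intro x hx
    refine Subgroup.mem_centralizer_iff.2 ?_
    intro y hy
    exact hc y hy x hx
  refine ⟨Subgroup.closure S, (Subgroup.closure_le N).2 hS, hinf.mono Subgroup.subset_closure, ?_⟩
  intro x hx y hy
  exact (Subgroup.mem_centralizer_iff.1 (h1 hy)) x (h2 hx)

end Pool.Agent.H52A
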