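import Pool.Agent.Lib.H52A.Base

/-!
Equations of length three in one variable with a positive proportion of solutions.
-/

set_option autoImplicit false

namespace Pool.Agent.H52A

open Set

variable {Γ : Type*} [Group Γ]

/-- the solutions of `a x b x c x = 1` -/
def T3 (a b c : Γ) : Set Γ := {x | a * x * b * x * c * x = 1}

lemma P_eq (a b c x g h : Γ) (h1 : x ∈ T3 a b c) (h2 : g * x ∈ T3 a b c) (h3 : x * h ∈ T3 a b c)
    (h4 : g * x * h ∈ T3 a b c) :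
    ((a * x) * h * (a * x)⁻¹) * ((a * x * b) * g * (a * x * b)⁻¹) * ((a * x) * h * (a * x)⁻¹)⁻¹
      = (a * g * a⁻¹)⁻¹ * h⁻¹ * (a * g * a⁻¹) * ((a * x * b) * g * (a * x * b)⁻¹) * h := by
  have h1' : a * x * b * x * c * x = 1 := h1
  have h2' : a * (g * x) * b * (g * x) * c * (g * x) = 1 := h2
  have h3' : a * (x * h) * b * (x * h) * c * (x * h) = 1 := h3
  have h4' : a * (g * x * h) * b * (g * x * h) * c * (g * x * h) = 1 := h4
  have hc : c = (a * x * b * x)⁻¹ * x⁻¹ := by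
    rw [eq_mul_inv_iff_mul_eq, eq_inv_iff_mul_eq_one, mul_eq_one_comm, ← h1']; group
  have e2 : (a * g * a⁻¹) * ((a * x * b) * g * (a * x * b)⁻¹) * (x⁻¹ * g * x) = 1 := by
    rw [← h2', hc]; group
  have e3 : ((a * x) * h * (a * x)⁻¹) * ((a * x * b * x) * h * (a * x * b * x)⁻¹) * h = 1 := by
    rw [← h3', hc]; group
  have e4 : (a * g * a⁻¹) * ((a * x) * h * (a * x)⁻¹) * ((a * x * b) * g * (a * x * b)⁻¹) *
      ((a * x * b * x) * h * (a * x * b * x)⁻¹) * (x⁻¹ * g * x) * h = 1 := by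
    rw [← h4', hc]; group
  generalize (a * g * a⁻¹) = r at *
  generalize (a * x * b) * g * (a * x * b)⁻¹ = q at *
  generalize (a * x) * h * (a * x)⁻¹ = p at *
  generalize (a * x * b * x) * h * (a * x * b * x)⁻¹ = s at *
  generalize x⁻¹ * g * x = t at *
  have f2 : t = (r * q)⁻¹ := by rw [eq_inv_iff_mul_eq_one, ← mul_eq_one_comm, e2] 
  have f3 : s = p⁻¹ * h⁻¹ := by
    rw [eq_inv_mul_iff_mul_eq, eq_inv_iff_mul_eq_one, e3]
  rw [f2, f3] at e4
  have e5 : r * (p * q * p⁻¹) * h⁻¹ * (r * q)⁻¹ * h = 1 := by rw [← e4]; group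
  calc p * q * p⁻¹ = r⁻¹ * (r * (p * q * p⁻¹) * h⁻¹ * (r * q)⁻¹ * h) * h⁻¹ * (r * q) * h := by group
    _ = r⁻¹ * h⁻¹ * r * q * h := by rw [e5]; group

/-- the key identity: `axb v (axb)⁻¹` conjugates an element independent of `x` to an element
independent of `x` -/
lemma conj_eq (a b c x v w u : Γ) (h0 : x ∈ T3 a b c) (h1 : v * x ∈ T3 a b c)
    (h2 : w * x ∈ T3 a b c) (h3 : v * (w * x) ∈ T3 a b c) (k0 : x * u ∈ T3 a b c)
    (k1 : v * x * u ∈ T3 a b c) (k2 : w * x * u ∈ T3 a b c) (k3 : v * (w * x) * u ∈ T3 a b c) :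
    ((a * x * b) * v * (a * x * b)⁻¹) * (u * (a * w * a⁻¹)⁻¹ * u⁻¹ * (a * w * a⁻¹)) *
      ((a * x * b) * v * (a * x * b)⁻¹)⁻¹ =
    (a * v * a⁻¹)⁻¹ * u * (a * v * a⁻¹) * (a * (v * w) * a⁻¹)⁻¹ * u⁻¹ * (a * (v * w) * a⁻¹) := by
  have e1 := P_eq a b c x v u h0 h1 k0 k1
  have e2 := P_eq a b c x w u h0 h2 k0 k2
  have e3 := P_eq a b c x (v * w) u h0 (by rw [mul_assoc]; exact h3) k0 (by
    rw [mul_assoc v w x]; exact k3)
  have q3 : (a * x * b) * (v * w) * (a * x * b)⁻¹ =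
      ((a * x * b) * v * (a * x * b)⁻¹) * ((a * x * b) * w * (a * x * b)⁻¹) := by group
  have r3 : a * (v * w) * a⁻¹ = (a * v * a⁻¹) * (a * w * a⁻¹) := by group
  rw [q3] at e3
  rw [r3] at e3 ⊢
  generalize (a * x * b) * v * (a * x * b)⁻¹ = qv at *
  generalize (a * x * b) * w * (a * x * b)⁻¹ = qw at *
  generalize (a * x) * u * (a * x)⁻¹ = p at *
  generalize a * v * a⁻¹ = rv at *
  generalize a * w * a⁻¹ = rw' at *
  have e4 : (p * qv * p⁻¹) * (p * qw * p⁻¹) = p * (qv * qw) * p⁻¹ := by group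
  rw [e1, e2, e3] at e4
  -- e4 : rv⁻¹ u⁻¹ rv qv u · rw⁻¹ u⁻¹ rw qw u = (rv rw)⁻¹ u⁻¹ (rv rw) (qv qw) u
  have e5 : rv⁻¹ * u⁻¹ * rv * qv * u * (rw'⁻¹ * u⁻¹ * rw') = (rv * rw')⁻¹ * u⁻¹ * (rv * rw') * qv := by
    calc rv⁻¹ * u⁻¹ * rv * qv * u * (rw'⁻¹ * u⁻¹ * rw')
        = (rv⁻¹ * u⁻¹ * rv * qv * u * (rw'⁻¹ * u⁻¹ * rw' * qw * u)) * u⁻¹ * qw⁻¹ := by group
      _ = _ := by rw [e4]; group
  calc qv * (u * rw'⁻¹ * u⁻¹ * rw') * qv⁻¹
      = rv⁻¹ * u * rv * (rv⁻¹ * u⁻¹ * rv * qv * u * (rw'⁻¹ * u⁻¹ * rw')) * qv⁻¹ := by group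
    _ = _ := by rw [e5]; group

/-- Under a two-sided invariant mean, the equation `a x b x c x = 1` has almost no solution, if `N`
is infinite and has no infinite set of commuting elements. -/
theorem bi {N : Subgroup Γ} (hN : N.Normal) (hNoInf : NoInf N) (hinf : (N : Set Γ).Infinite)
    {m : Set Γ → ℝ} (hm : FAP m) (hL : LInv N m) (hR : RInv N m) (a b c : Γ) :
    ¬ 0 < m (T3 a b c) := by
  classical
  intro hpos
  -- choice of `v`
  obtain ⟨g, hg1, hg2⟩ := exists_seq hNoInf hinf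
  obtain ⟨i, j, hij, hA₀⟩ := insertL hm hL (T3 a b c) hpos (fun n => (g n)⁻¹)
    (fun n => N.inv_mem (hg1 n))
  have hvN : (g j)⁻¹ * ((g i)⁻¹)⁻¹ ∈ N := N.mul_mem (N.inv_mem (hg1 j)) (by simpa using hg1 i)
  have hv : (g j)⁻¹ * ((g i)⁻¹)⁻¹ ∉ fc N := by
    intro h
    apply hg2 i j hij
    have := (fc N).inv_mem h
    convert this using 1
    group
  set v := (g j)⁻¹ * ((g i)⁻¹)⁻¹ with hvdef
  clear_value v
  -- maximal controlled set
  let P : Finset Γ → Prop := fun F => ((↑F : Set Γ) ⊆ (N : Set Γ) ∧ Cmt (↑F : Set Γ)) ∧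
    ∃ A : Set Γ, (∀ x ∈ A, x ∈ T3 a b c ∧ v * x ∈ T3 a b c) ∧ 0 < m A ∧
      ∀ f ∈ F, ∃ k, ∀ x ∈ A, ((a * x * b) * v * (a * x * b)⁻¹) * f *
        ((a * x * b) * v * (a * x * b)⁻¹)⁻¹ = k
  obtain ⟨F, ⟨⟨hFN, hFc⟩, A, hA1, hA2, hA3⟩, hmax⟩ := exists_max hNoInf P (fun F hF => hF.1) ∅ (by
    refine ⟨⟨by simp, fun x hx => by simp at hx⟩, _, ?_, hA₀, by simp⟩
    rintro x ⟨hx1, hx2⟩
    exact ⟨hx1, hx2⟩)
  set C : Subgroup Γ := Subgroup.centralizer (F : Set Γ) ⊓ N with hC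
  have hCN : C ≤ N := inf_le_right
  have hCF : ∀ y ∈ C, ∀ f ∈ F, f * y = y * f := fun y hy f hf =>
    (Subgroup.mem_centralizer_iff.1 hy.1) f hf
  by_cases hCinf : (C : Set Γ).Infinite
  · -- extension
    obtain ⟨g, hg1, hg2⟩ := exists_seq (hNoInf.mono hCN) hCinf
    obtain ⟨i, j, hij, hA'⟩ := insertR hm hR A hA2 g (fun n => hCN (hg1 n))
    have huC : (g i)⁻¹ * g j ∈ C := C.mul_mem (C.inv_mem (hg1 i)) (hg1 j)
    have hu := hg2 i j hij
    set u := (g i)⁻¹ * g j with hudef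
    clear_value u
    have huinf : (cj C u⁻¹).Infinite := by
      intro hfin
      apply hu
      have : u⁻¹ ∈ fc C := hfin
      simpa using (fc C).inv_mem this
    obtain ⟨ρ, hρ1, hρ2⟩ := exists_seq_of_forall_finset_exists (fun y => y ∈ C)
      (fun y z => ∀ f ∈ F, z⁻¹ * u⁻¹ * z ≠ y⁻¹ * u⁻¹ * f * y) (by
        intro s hs
        have hfin : (↑((s ×ˢ F).image fun p : Γ × Γ => p.1⁻¹ * u⁻¹ * p.2 * p.1) : Set Γ).Finite :=
          Finset.finite_toSet _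
        obtain ⟨y, hy, hy2⟩ := (huinf.sdiff hfin).nonempty
        obtain ⟨z, hz, hyz⟩ := hy
        refine ⟨z⁻¹, C.inv_mem hz, ?_⟩
        intro t ht f hf heq
        apply hy2
        rw [Finset.mem_coe, Finset.mem_image]
        refine ⟨(t, f), Finset.mem_product.2 ⟨ht, hf⟩, ?_⟩
        simp only
        rw [← heq, hyz]; group)
    obtain ⟨i', j', hij', hA''⟩ := insertL hm hL _ hA' (fun n => a⁻¹ * ρ n * a) (fun n => by
      have := hN.conj_mem (ρ n) (hCN (hρ1 n)) a⁻¹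
      simpa using this)
    set w := a⁻¹ * ρ j' * a * (a⁻¹ * ρ i' * a)⁻¹ with hwdef
    have hrw : a * w * a⁻¹ = ρ j' * (ρ i')⁻¹ := by rw [hwdef]; group
    clear_value w
    have hrC : a * w * a⁻¹ ∈ C := by rw [hrw]; exact C.mul_mem (hρ1 j') (C.inv_mem (hρ1 i'))
    set f₀ := u * (a * w * a⁻¹)⁻¹ * u⁻¹ * (a * w * a⁻¹) with hf₀
    have hf₀C : f₀ ∈ C := C.mul_mem (C.mul_mem (C.mul_mem huC (C.inv_mem hrC)) (C.inv_mem huC)) hrC
    have hf₀F : f₀ ∉ F := by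
      intro hf
      apply hρ2 i' j' hij' f₀ hf
      rw [hf₀, hrw]
      group
    apply hmax (insert f₀ F) (Finset.ssubset_insert hf₀F)
    refine ⟨⟨?_, ?_⟩, _, ?_, hA'', ?_⟩
    · intro x hx
      rw [Finset.coe_insert] at hx
      rcases hx with rfl | hx
      · exact hCN hf₀C
      · exact hFN hx
    · intro x hx y hy
      rw [Finset.coe_insert] at hx hy
      rcases hx with rfl | hx
      · rcases hy with rfl | hy
        · rfl
        · exact (hCF _ hf₀C y hy).symm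
      · rcases hy with rfl | hy
        · exact hCF _ hf₀C x hx
        · exact hFc x hx y hy
    · rintro x ⟨⟨hx1, _⟩, _⟩
      exact hA1 x hx1
    · intro f hf
      rw [Finset.mem_insert] at hf
      rcases hf with rfl | hf
      · refine ⟨(a * v * a⁻¹)⁻¹ * u * (a * v * a⁻¹) * (a * (v * w) * a⁻¹)⁻¹ * u⁻¹ *
          (a * (v * w) * a⁻¹), ?_⟩
        rintro x ⟨⟨hx1, hx2⟩, hx3, hx4⟩
        obtain ⟨t1, t2⟩ := hA1 x hx1
        obtain ⟨t3, t4⟩ := hA1 _ hx2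
        obtain ⟨t5, t6⟩ := hA1 _ hx3
        obtain ⟨t7, t8⟩ := hA1 _ hx4
        exact conj_eq a b c x v w u t1 t2 t5 t6 t3 (by rw [mul_assoc]; exact t4) t7
          (by rw [mul_assoc v]; exact t8)
      · obtain ⟨k, hk⟩ := hA3 f hf
        exact ⟨k, fun x hx => hk x hx.1.1⟩
  · -- finitely many values
    rw [Set.not_infinite] at hCinf
    apply hv
    obtain ⟨x₀, hx₀⟩ := hm.nonempty hA2
    let K : Set Γ := (fun y => a⁻¹ * (((a * x₀ * b) * v * (a * x₀ * b)⁻¹) * y) * a) '' (C : Set Γ)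
    have hK : K.Finite := hCinf.image _
    obtain ⟨k, _, hk⟩ := hm.exists_pos_of_cover K hK
      (fun k => {x | x * (b * v * b⁻¹) * x⁻¹ = k}) A hA2 (by
        intro x hx
        refine ⟨_, ?_, rfl⟩
        refine ⟨((a * x₀ * b) * v * (a * x₀ * b)⁻¹)⁻¹ * ((a * x * b) * v * (a * x * b)⁻¹), ?_, ?_⟩
        · refine ⟨?_, ?_⟩
          · refine Subgroup.mem_centralizer_iff.2 ?_
            intro f hf
            obtain ⟨k, hk⟩ := hA3 f hf
            have k1 := hk x hx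
            have k2 := hk x₀ hx₀
            generalize (a * x₀ * b) * v * (a * x₀ * b)⁻¹ = q₀ at *
            generalize (a * x * b) * v * (a * x * b)⁻¹ = q at *
            calc f * (q₀⁻¹ * q) = q₀⁻¹ * (q₀ * f * q₀⁻¹) * q := by group
              _ = q₀⁻¹ * (q * f * q⁻¹) * q := by rw [k1, k2]
              _ = q₀⁻¹ * q * f := by group
          · exact N.mul_mem (N.inv_mem (hN.conj_mem v hvN _)) (hN.conj_mem v hvN _)
        · group)
    have h1 := fc_of_const hN hm hL _ _ hk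
    have h2 := fc_conj hN h1 b⁻¹
    convert h2 using 1
    group

/-- one step: sets of positive mean on which `x a u a⁻¹ x⁻¹` does not depend on `x` as soon as
`x` and `u x` are in the set -/
theorem one_step {N : Subgroup Γ} (hN : N.Normal) (hNoInf : NoInf N) (hinf : (N : Set Γ).Infinite)
    {m : Set Γ → ℝ} (hm : FAP m) (hL : LInv N m) (T : Set Γ) (a : Γ)
    (hT : ∀ u ∈ N, ∃ k, ∀ x, x ∈ T → u * x ∈ T → x * (a * u * a⁻¹) * x⁻¹ = k) : ¬ 0 < m T := by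
  intro hpos
  obtain ⟨g, hg1, hg2⟩ := exists_seq hNoInf hinf
  obtain ⟨i, j, hij, hA₀⟩ := insertL hm hL _ hpos (fun n => (g n)⁻¹)
    (fun n => N.inv_mem (hg1 n))
  have hvN : (g j)⁻¹ * ((g i)⁻¹)⁻¹ ∈ N := N.mul_mem (N.inv_mem (hg1 j)) (by simpa using hg1 i)
  have hv : (g j)⁻¹ * ((g i)⁻¹)⁻¹ ∉ fc N := by
    intro h
    apply hg2 i j hij
    have := (fc N).inv_mem h
    convert this using 1
    group
  set u := (g j)⁻¹ * ((g i)⁻¹)⁻¹ with hvdef
  clear_value u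
  apply hv
  obtain ⟨k, hk⟩ := hT u hvN
  have h1 : 0 < m {x | x * (a * u * a⁻¹) * x⁻¹ = k} :=
    lt_of_lt_of_le hA₀ (hm.mono fun x hx => hk x hx.1 hx.2)
  have h2 := fc_of_const hN hm hL _ _ h1
  have h3 := fc_conj hN h2 a⁻¹
  convert h3 using 1
  group

/-- the equation `x a x b x⁻¹ = c` (left invariance suffices) -/
theorem mixed {N : Subgroup Γ} (hN : N.Normal) (hNoInf : NoInf N) (hinf : (N : Set Γ).Infinite)
    {m : Set Γ → ℝ} (hm : FAP m) (hL : LInv N m) (a b c : Γ) :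
    ¬ 0 < m {x | x * a * x * b * x⁻¹ = c} := by
  refine one_step hN hNoInf hinf hm hL _ a ?_
  intro u _
  refine ⟨u⁻¹ * c * u * c⁻¹, ?_⟩
  intro x e1 e2
  have e1 : x * a * x * b * x⁻¹ = c := e1
  have e2 : (u * x) * a * (u * x) * b * (u * x)⁻¹ = c := e2
  have e3 : x * b * x⁻¹ = (x * a)⁻¹ * c := by rw [← e1]; group
  have e4 : u * (x * a) * u * (x * b * x⁻¹) * u⁻¹ = c := by rw [← e2]; group
  rw [e3] at e4
  calc x * (a * u * a⁻¹) * x⁻¹
      = u⁻¹ * (u * (x * a) * u * ((x * a)⁻¹ * c) * u⁻¹) * u * c⁻¹ := by group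
    _ = u⁻¹ * c * u * c⁻¹ := by rw [e4]

/-- the equation `x a x = c` (left invariance suffices) -/
theorem quad {N : Subgroup Γ} (hN : N.Normal) (hNoInf : NoInf N) (hinf : (N : Set Γ).Infinite)
    {m : Set Γ → ℝ} (hm : FAP m) (hL : LInv N m) (a c : Γ) :
    ¬ 0 < m {x | x * a * x = c} := by
  refine one_step hN hNoInf hinf hm hL _ a ?_
  intro u _
  refine ⟨u⁻¹, ?_⟩
  intro x e1 e2
  have e1 : x * a * x = c := e1
  have e2 : (u * x) * a * (u * x) = c := e2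
  have e4 : u * (x * a) * u * (x * a)⁻¹ * (x * a * x) = c := by rw [← e2]; group
  rw [e1] at e4
  calc x * (a * u * a⁻¹) * x⁻¹
      = u⁻¹ * (u * (x * a) * u * (x * a)⁻¹ * c) * c⁻¹ := by group
    _ = u⁻¹ := by rw [e4]; group

end Pool.Agent.H52A
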