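import Pool.Agent.Lib.H52A.Cube

/-!
Statements modulo the elements with finitely many conjugates, with the hypotheses on the mean in
the form of the problem.
-/

set_option autoImplicit false

namespace Pool.Agent.H52A

open Set

variable {Γ : Type*} [Group Γ]

/-- the elements of `N` which have only finitely many conjugates under `N` -/
def FCset (N : Subgroup Γ) : Set Γ := {y | y ∈ N ∧ {z | ∃ g ∈ N, z = g * y * g⁻¹}.Finite}

lemma FCset_finite {N : Subgroup Γ} (hN : NoInf N) : (FCset N).Finite := by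
  apply (fc_finite hN).subset
  rintro y ⟨h1, h2⟩
  exact ⟨h2, h1⟩

lemma linv_of_image {N : Subgroup Γ} {m : Set Γ → ℝ}
    (h : ∀ g ∈ N, ∀ A : Set Γ, m ((fun x => g * x) '' A) = m A) : LInv N m := by
  intro g hg A
  rw [← h g⁻¹ (N.inv_mem hg) A]
  congr 1
  ext x
  constructor
  · intro hx
    exact ⟨g * x, hx, by simp⟩
  · rintro ⟨y, hy, rfl⟩
    show g * (g⁻¹ * y) ∈ A
    rw [mul_inv_cancel_left]; exact hy

lemma rinv_of_image {N : Subgroup Γ} {m : Set Γ → ℝ}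
    (h : ∀ g ∈ N, ∀ A : Set Γ, m ((fun x => x * g) '' A) = m A) : RInv N m := by
  intro g hg A
  rw [← h g⁻¹ (N.inv_mem hg) A]
  congr 1
  ext x
  constructor
  · intro hx
    exact ⟨x * g, hx, by simp⟩
  · rintro ⟨y, hy, rfl⟩
    show y * g⁻¹ * g ∈ A
    rw [inv_mul_cancel_right]; exact hy

/-- positive proportion of cubes in a coset of the FC-centre -/
theorem cubes (N : Subgroup Γ) (hN : N.Normal) (hinf : (N : Set Γ).Infinite)
    (m : Set Γ → ℝ) (h0 : ∀ A : Set Γ, 0 ≤ m A) (h1 : m Set.univ = 1)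
    (hadd : ∀ A B : Set Γ, Disjoint A B → m (A ∪ B) = m A + m B)
    (hleft : ∀ g ∈ N, ∀ A : Set Γ, m ((fun x => g * x) '' A) = m A)
    (c : Γ) (hpos : 0 < m {x | c⁻¹ * x ^ 3 ∈ FCset N}) :
    ∃ H : Subgroup Γ, H ≤ N ∧ (H : Set Γ).Infinite ∧ ∀ x ∈ H, ∀ y ∈ H, x * y = y * x := by
  have hm : FAP m := ⟨h0, h1, hadd⟩
  by_contra hcon
  have hNoInf : NoInf N := by
    by_contra h
    exact hcon (exists_abelian h)
  obtain ⟨f, _, hf⟩ := hm.exists_pos_of_cover (FCset N) (FCset_finite hNoInf)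
    (fun f => {x | x ^ 3 = c * f}) _ hpos (fun x hx => ⟨c⁻¹ * x ^ 3, hx, by
      show x ^ 3 = c * (c⁻¹ * x ^ 3)
      rw [mul_inv_cancel_left]⟩)
  exact cube hN hNoInf hinf hm (linv_of_image hleft) (c * f) hf

/-- positive proportion of solutions of an equation of length three -/
theorem short (N : Subgroup Γ) (hN : N.Normal) (hinf : (N : Set Γ).Infinite)
    (m : Set Γ → ℝ) (h0 : ∀ A : Set Γ, 0 ≤ m A) (h1 : m Set.univ = 1)
    (hadd : ∀ A B : Set Γ, Disjoint A B → m (A ∪ B) = m A + m B)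
    (hleft : ∀ g ∈ N, ∀ A : Set Γ, m ((fun x => g * x) '' A) = m A)
    (a b c : Γ) (e₁ e₂ e₃ : ℤ)
    (he₁ : e₁ = 1 ∨ e₁ = -1) (he₂ : e₂ = 1 ∨ e₂ = -1) (he₃ : e₃ = 1 ∨ e₃ = -1)
    (hright : (e₁ = e₂ ∧ e₂ = e₃) → ∀ g ∈ N, ∀ A : Set Γ, m ((fun x => x * g) '' A) = m A)
    (hpos : 0 < m {x | a * x ^ e₁ * b * x ^ e₂ * c * x ^ e₃ ∈ FCset N}) :
    ∃ H : Subgroup Γ, H ≤ N ∧ (H : Set Γ).Infinite ∧ ∀ x ∈ H, ∀ y ∈ H, x * y = y * x := by
  have hm : FAP m := ⟨h0, h1, hadd⟩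
  by_contra hcon
  have hNoInf : NoInf N := by
    by_contra h
    exact hcon (exists_abelian h)
  obtain ⟨f, _, hf⟩ := hm.exists_pos_of_cover (FCset N) (FCset_finite hNoInf)
    (fun f => {x | (f⁻¹ * a) * x ^ e₁ * b * x ^ e₂ * c * x ^ e₃ = 1}) _ hpos
    (fun x hx => ⟨_, hx, by
      show _ = _
      group⟩)
  by_cases hne : e₁ = e₂ ∧ e₂ = e₃
  · exact all3 hN hNoInf hinf hm (linv_of_image hleft) (rinv_of_image (hright hne)) _ b c e₁ e₂ e₃
      he₁ he₂ he₃ hf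
  · exact mixed3 hN hNoInf hinf hm (linv_of_image hleft) _ b c e₁ e₂ e₃ he₁ he₂ he₃ hne hf

end Pool.Agent.H52A
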