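import Pool.Agent.Lib.H52A.Cubic
import Pool.Agent.Lib.H52A.Avg

/-!
Equations `a x b x c x = 1`: left invariance suffices. The idea: write `x = u y` with `u` in the
normal subgroup, and insert elements between `u` and `y`.
-/

set_option autoImplicit false

namespace Pool.Agent.H52A

open Set

variable {Γ : Type*} [Group Γ]

/-- `g q(g) r(g) = 1` -/
lemma mid_eq (a b c u y g : Γ) (h1 : u * y ∈ T3 a b c) (h2 : u * g * y ∈ T3 a b c) :
    g * ((y * b * u) * g * (y * b * u)⁻¹) *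
      ((y * b * u * (y * c * u)) * g * (y * b * u * (y * c * u))⁻¹) = 1 := by
  have h1' : a * (u * y) * b * (u * y) * c * (u * y) = 1 := h1
  have h2' : a * (u * g * y) * b * (u * g * y) * c * (u * g * y) = 1 := h2
  have e : a * (u * g * y) * b * (u * g * y) * c * (u * g * y) =
      (a * u) * (g * ((y * b * u) * g * (y * b * u)⁻¹) *
      ((y * b * u * (y * c * u)) * g * (y * b * u * (y * c * u))⁻¹)) * (a * u)⁻¹ *
      (a * (u * y) * b * (u * y) * c * (u * y)) := by group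
  rw [h1', h2', mul_one] at e
  rw [← mul_inv_eq_iff_eq_mul, inv_inv, one_mul, eq_comm, mul_eq_left] at e
  exact e

/-- the key identity: `(y b u) v (y b u)⁻¹` conjugates `t w⁻¹ t⁻¹ w` to an element which depends on
`t`, `v` and `w` only -/
lemma mid_conj (a b c u y t v w : Γ) (h0 : u * y ∈ T3 a b c) (ht : u * t * y ∈ T3 a b c)
    (hv : u * v * y ∈ T3 a b c) (hw : u * w * y ∈ T3 a b c)
    (htv : u * (t * v) * y ∈ T3 a b c) (htw : u * (t * w) * y ∈ T3 a b c)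
    (hvw : u * (v * w) * y ∈ T3 a b c) (htvw : u * (t * (v * w)) * y ∈ T3 a b c) :
    ((y * b * u) * v * (y * b * u)⁻¹) * (t * w⁻¹ * t⁻¹ * w) *
      ((y * b * u) * v * (y * b * u)⁻¹)⁻¹ = v⁻¹ * t * v * w⁻¹ * v⁻¹ * t⁻¹ * v * w := by
  have key : ∀ g h : Γ, u * g * y ∈ T3 a b c → u * h * y ∈ T3 a b c → u * (g * h) * y ∈ T3 a b c →
      ((y * b * u) * g * (y * b * u)⁻¹) * ((y * b * u) * h * (y * b * u)⁻¹) *
        ((y * b * u) * g * (y * b * u)⁻¹)⁻¹ =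
      h⁻¹ * g⁻¹ * h * ((y * b * u) * h * (y * b * u)⁻¹) * g := by
    intro g h hg hh hgh
    have e1 := mid_eq a b c u y g h0 hg
    have e2 := mid_eq a b c u y h h0 hh
    have e3 := mid_eq a b c u y (g * h) h0 hgh
    have q3 : (y * b * u) * (g * h) * (y * b * u)⁻¹ =
      ((y * b * u) * g * (y * b * u)⁻¹) * ((y * b * u) * h * (y * b * u)⁻¹) := by group
    have r3 : (y * b * u * (y * c * u)) * (g * h) * (y * b * u * (y * c * u))⁻¹ =
      ((y * b * u * (y * c * u)) * g * (y * b * u * (y * c * u))⁻¹) *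
      ((y * b * u * (y * c * u)) * h * (y * b * u * (y * c * u))⁻¹) := by group
    rw [q3, r3] at e3
    generalize (y * b * u) * g * (y * b * u)⁻¹ = qg at *
    generalize (y * b * u) * h * (y * b * u)⁻¹ = qh at *
    generalize (y * b * u * (y * c * u)) * g * (y * b * u * (y * c * u))⁻¹ = rg at *
    generalize (y * b * u * (y * c * u)) * h * (y * b * u * (y * c * u))⁻¹ = rh at *
    have f1 : rg = qg⁻¹ * g⁻¹ := by
      rw [eq_inv_mul_iff_mul_eq, eq_inv_iff_mul_eq_one, mul_eq_one_comm, ← mul_assoc, e1]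
    have f2 : rh = qh⁻¹ * h⁻¹ := by
      rw [eq_inv_mul_iff_mul_eq, eq_inv_iff_mul_eq_one, mul_eq_one_comm, ← mul_assoc, e2]
    rw [f1, f2] at e3
    calc qg * qh * qg⁻¹
        = h⁻¹ * g⁻¹ * (g * h * (qg * qh) * (qg⁻¹ * g⁻¹ * (qh⁻¹ * h⁻¹))) * h * qh * g := by group
      _ = h⁻¹ * g⁻¹ * h * qh * g := by rw [e3]; group
  have k1 := key t v ht hv htv
  have k2 := key t w ht hw htw
  have k3 := key t (v * w) ht hvw htvw
  have q3 : (y * b * u) * (v * w) * (y * b * u)⁻¹ =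
      ((y * b * u) * v * (y * b * u)⁻¹) * ((y * b * u) * w * (y * b * u)⁻¹) := by group
  rw [q3] at k3
  generalize (y * b * u) * t * (y * b * u)⁻¹ = qt at *
  generalize (y * b * u) * v * (y * b * u)⁻¹ = qv at *
  generalize (y * b * u) * w * (y * b * u)⁻¹ = qw at *
  have e4 : (qt * qv * qt⁻¹) * (qt * qw * qt⁻¹) = qt * (qv * qw) * qt⁻¹ := by group
  rw [k1, k2, k3] at e4
  have e5 : v⁻¹ * t⁻¹ * v * qv * (t * w⁻¹ * t⁻¹ * w) = (v * w)⁻¹ * t⁻¹ * (v * w) * qv := by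
    calc v⁻¹ * t⁻¹ * v * qv * (t * w⁻¹ * t⁻¹ * w)
        = (v⁻¹ * t⁻¹ * v * qv * t * (w⁻¹ * t⁻¹ * w * qw * t)) * t⁻¹ * qw⁻¹ := by group
      _ = _ := by rw [e4]; group
  calc qv * (t * w⁻¹ * t⁻¹ * w) * qv⁻¹
      = v⁻¹ * t * v * (v⁻¹ * t⁻¹ * v * qv * (t * w⁻¹ * t⁻¹ * w)) * qv⁻¹ := by group
    _ = _ := by rw [e5]; group

/-- the joint mean -/
theorem joint {N : Subgroup Γ} {m : Set Γ → ℝ} (h : FAP m) (hL : LInv N m) :
    ∃ M : Set (N × Γ) → ℝ, FAP M ∧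
      (∀ (g : N) (A : Set (N × Γ)), M {p | (p.1, (g : Γ) * p.2) ∈ A} = M A) ∧
      (∀ (g : N) (A : Set (N × Γ)), M {p | (p.1 * g, p.2) ∈ A} = M A) ∧
      (∀ A : Set Γ, M {p | (p.1 : Γ) * p.2 ∈ A} = m A) ∧
      (∀ A : Set (N × Γ), 0 < M A → ∃ u : N, 0 < m {x | (u, x) ∈ A}) := by
  obtain ⟨ν, hν, hνL⟩ := exists_mean h hL
  refine ⟨fun A => J hν (fun g => m {x | (g⁻¹, x) ∈ A}), ⟨?_, ?_, ?_⟩, ?_, ?_, ?_, ?_⟩
  · intro A; exact J_nonneg hν _
  · have : (fun g : N => m {x : Γ | (g⁻¹, x) ∈ (Set.univ : Set (N × Γ))}) = fun _ => 1 := by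
      funext g
      rw [← h.univ]; congr 1
    show J hν (fun g : N => m {x : Γ | (g⁻¹, x) ∈ (Set.univ : Set (N × Γ))}) = 1
    rw [this]
    exact J_const hν 1 zero_le_one le_rfl
  · intro A B hAB
    have e : ∀ g : N, m {x | (g⁻¹, x) ∈ A ∪ B} =
        m {x | (g⁻¹, x) ∈ A} + m {x | (g⁻¹, x) ∈ B} := by
      intro g
      rw [← h.add]
      · congr 1
      · rw [disjoint_left]
        intro x h1 h2
        exact disjoint_left.1 hAB h1 h2
    show J hν (fun g : N => m {x | (g⁻¹, x) ∈ A ∪ B}) = _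
    simp only [e]
    apply J_add hν _ _ (fun _ => h.nonneg _) (fun _ => h.nonneg _)
    intro g
    rw [← e]
    exact h.le_one _
  · intro g A
    show J hν (fun y => m {x | (y⁻¹, x) ∈ {p : N × Γ | (p.1, (g : Γ) * p.2) ∈ A}}) =
      J hν (fun y => m {x | (y⁻¹, x) ∈ A})
    congr 1
    funext y
    rw [← hL g g.2 {x | (y⁻¹, x) ∈ A}]
    congr 1
  · intro g A
    show J hν (fun y => m {x | (y⁻¹, x) ∈ {p : N × Γ | (p.1 * g, p.2) ∈ A}}) =
      J hν (fun y => m {x | (y⁻¹, x) ∈ A})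
    rw [← J_inv hν hνL (fun y => m {x | (y⁻¹, x) ∈ A}) g⁻¹]
    congr 1
    funext y
    congr 1
    ext x
    show (y⁻¹ * g, x) ∈ A ↔ ((g⁻¹ * y)⁻¹, x) ∈ A
    rw [mul_inv_rev, inv_inv]
  · intro A
    have e : (fun g : N => m {x | (g⁻¹, x) ∈ {p : N × Γ | (p.1 : Γ) * p.2 ∈ A}}) =
        fun _ => m A := by
      funext g
      rw [← hL (g : Γ)⁻¹ (N.inv_mem g.2) A]
      congr 1
    show J hν (fun g : N => m {x | (g⁻¹, x) ∈ {p : N × Γ | (p.1 : Γ) * p.2 ∈ A}}) = m A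
    rw [e]
    exact J_const hν _ (h.nonneg _) (h.le_one _)
  · intro A hA
    by_contra hcon
    push Not at hcon
    have e : (fun g : N => m {x | (g⁻¹, x) ∈ A}) = fun _ => 0 := by
      funext g
      exact le_antisymm (hcon _) (h.nonneg _)
    have h2 : J hν (fun g : N => m {x | (g⁻¹, x) ∈ A}) = 0 := by
      rw [e]; exact J_const hν 0 le_rfl zero_le_one
    have h3 : 0 < J hν (fun g : N => m {x | (g⁻¹, x) ∈ A}) := hA
    rw [h2] at h3
    exact lt_irrefl _ h3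

/-- The equation `a x b x c x = 1` has almost no solution for a left invariant mean, if `N`
is infinite and has no infinite set of commuting elements. -/
theorem pure3 {N : Subgroup Γ} (hN : N.Normal) (hNoInf : NoInf N) (hinf : (N : Set Γ).Infinite)
    {m : Set Γ → ℝ} (hm : FAP m) (hL : LInv N m) (a b c : Γ) :
    ¬ 0 < m (T3 a b c) := by
  classical
  intro hpos
  obtain ⟨M, hM, hMI, hMO, hMA, hMf⟩ := joint hm hL
  -- insertions
  have insI : ∀ (A : Set (N × Γ)), 0 < M A → ∀ (g : ℕ → Γ) (hg : ∀ n, g n ∈ N),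
      ∃ i j, i < j ∧ 0 < M {p | p ∈ A ∧ (p.1, g j * (g i)⁻¹ * p.2) ∈ A} := by
    intro A hA g hg
    obtain ⟨i, j, hij, h⟩ := hM.exists_inter (fun i => {p | (p.1, g i * p.2) ∈ A}) (M A) hA
      (fun i => hMI ⟨g i, hg i⟩ A)
    refine ⟨i, j, hij, ?_⟩
    rw [← hMI ⟨g i, hg i⟩ {p | p ∈ A ∧ (p.1, g j * (g i)⁻¹ * p.2) ∈ A}]
    convert h using 2
    ext p
    show (p.1, g i * p.2) ∈ A ∧ (p.1, g j * (g i)⁻¹ * (g i * p.2)) ∈ A ↔
      (p.1, g i * p.2) ∈ A ∧ (p.1, g j * p.2) ∈ A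
    rw [show g j * (g i)⁻¹ * (g i * p.2) = g j * p.2 by group]
  have insO : ∀ (A : Set (N × Γ)), 0 < M A → ∀ (g : ℕ → N),
      ∃ i j, i < j ∧ 0 < M {p | p ∈ A ∧ (p.1 * ((g i)⁻¹ * g j), p.2) ∈ A} := by
    intro A hA g
    obtain ⟨i, j, hij, h⟩ := hM.exists_inter (fun i => {p | (p.1 * g i, p.2) ∈ A}) (M A) hA
      (fun i => hMO (g i) A)
    refine ⟨i, j, hij, ?_⟩
    rw [← hMO (g i) {p | p ∈ A ∧ (p.1 * ((g i)⁻¹ * g j), p.2) ∈ A}]
    convert h using 2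
    ext p
    show (p.1 * g i, p.2) ∈ A ∧ (p.1 * g i * ((g i)⁻¹ * g j), p.2) ∈ A ↔
      (p.1 * g i, p.2) ∈ A ∧ (p.1 * g j, p.2) ∈ A
    rw [show p.1 * g i * ((g i)⁻¹ * g j) = p.1 * g j by group]
  -- choice of `v`
  obtain ⟨g, hg1, hg2⟩ := exists_seq hNoInf hinf
  have hstart : 0 < M {p : N × Γ | (p.1 : Γ) * p.2 ∈ T3 a b c} := by rw [hMA]; exact hpos
  obtain ⟨i, j, hij, hA₀⟩ := insI _ hstart (fun n => (g n)⁻¹) (fun n => N.inv_mem (hg1 n))
  have hvN : (g j)⁻¹ * ((g i)⁻¹)⁻¹ ∈ N := N.mul_mem (N.inv_mem (hg1 j)) (by simpa using hg1 i)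
  have hv : (g j)⁻¹ * ((g i)⁻¹)⁻¹ ∉ fc N := by
    intro h
    apply hg2 i j hij
    have := (fc N).inv_mem h
    convert this using 1
    group
  set v := (g j)⁻¹ * ((g i)⁻¹)⁻¹ with hvdef
  clear_value v
  -- maximal controlled set
  let P : Finset Γ → Prop := fun F => ((↑F : Set Γ) ⊆ (N : Set Γ) ∧ Cmt (↑F : Set Γ)) ∧
    ∃ A : Set (N × Γ), (∀ p ∈ A, (p.1 : Γ) * p.2 ∈ T3 a b c ∧ (p.1 : Γ) * (v * p.2) ∈ T3 a b c) ∧
      0 < M A ∧ ∀ f ∈ F, ∃ k, ∀ p ∈ A, ((p.2 * b * p.1) * v * (p.2 * b * p.1)⁻¹) * f *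
        ((p.2 * b * p.1) * v * (p.2 * b * p.1)⁻¹)⁻¹ = k
  obtain ⟨F, ⟨⟨hFN, hFc⟩, A, hA1, hA2, hA3⟩, hmax⟩ := exists_max hNoInf P (fun F hF => hF.1) ∅ (by
    refine ⟨⟨by simp, fun x hx => by simp at hx⟩, _, ?_, hA₀, by simp⟩
    rintro p ⟨hx1, hx2⟩
    exact ⟨hx1, hx2⟩)
  set C : Subgroup Γ := Subgroup.centralizer (F : Set Γ) ⊓ N with hC
  have hCN : C ≤ N := inf_le_right
  have hCF : ∀ y ∈ C, ∀ f ∈ F, f * y = y * f := fun y hy f hf =>
    (Subgroup.mem_centralizer_iff.1 hy.1) f hf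
  by_cases hCinf : (C : Set Γ).Infinite
  · -- extension
    obtain ⟨g, hg1, hg2⟩ := exists_seq (hNoInf.mono hCN) hCinf
    obtain ⟨i, j, hij, hA'⟩ := insO A hA2 (fun n => ⟨g n, hCN (hg1 n)⟩)
    have htC : (g i)⁻¹ * g j ∈ C := C.mul_mem (C.inv_mem (hg1 i)) (hg1 j)
    have htfc := hg2 i j hij
    obtain ⟨t, htdef⟩ : ∃ t : N, t = (⟨g i, hCN (hg1 i)⟩ : N)⁻¹ * ⟨g j, hCN (hg1 j)⟩ := ⟨_, rfl⟩
    have htv : (t : Γ) = (g i)⁻¹ * g j := by rw [htdef]; rfl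
    rw [← htv] at htC htfc
    have hA'' : 0 < M {p | p ∈ A ∧ (p.1 * t, p.2) ∈ A} := by rw [htdef]; exact hA'
    have hinf2 : (cj C (t : Γ)⁻¹).Infinite := by
      intro hfin
      apply htfc
      have : (t : Γ)⁻¹ ∈ fc C := hfin
      simpa using (fc C).inv_mem this
    obtain ⟨ρ, hρ1, hρ2⟩ := exists_seq_of_forall_finset_exists (fun y => y ∈ C)
      (fun y z => ∀ f ∈ F, z⁻¹ * (t : Γ)⁻¹ * z ≠ y⁻¹ * (t : Γ)⁻¹ * f * y) (by
        intro s hs
        have hfin : (↑((s ×ˢ F).image fun p : Γ × Γ => p.1⁻¹ * (t : Γ)⁻¹ * p.2 * p.1) :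
            Set Γ).Finite := Finset.finite_toSet _
        obtain ⟨y, hy, hy2⟩ := (hinf2.sdiff hfin).nonempty
        obtain ⟨z, hz, hyz⟩ := hy
        refine ⟨z⁻¹, C.inv_mem hz, ?_⟩
        intro t' ht' f hf heq
        apply hy2
        rw [Finset.mem_coe, Finset.mem_image]
        refine ⟨(t', f), Finset.mem_product.2 ⟨ht', hf⟩, ?_⟩
        simp only
        rw [← heq, hyz]; group)
    obtain ⟨i', j', hij', hB⟩ := insI _ hA'' ρ (fun n => hCN (hρ1 n))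
    set w := ρ j' * (ρ i')⁻¹ with hwdef
    have hwC : w ∈ C := C.mul_mem (hρ1 j') (C.inv_mem (hρ1 i'))
    clear_value w
    set f₀ := (t : Γ) * w⁻¹ * (t : Γ)⁻¹ * w with hf₀
    have hf₀C : f₀ ∈ C := C.mul_mem (C.mul_mem (C.mul_mem htC (C.inv_mem hwC)) (C.inv_mem htC)) hwC
    have hf₀F : f₀ ∉ F := by
      intro hf
      apply hρ2 i' j' hij' f₀ hf
      rw [hf₀, hwdef]
      group
    apply hmax (insert f₀ F) (Finset.ssubset_insert hf₀F)
    refine ⟨⟨?_, ?_⟩, _, ?_, hB, ?_⟩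
    · intro x hx
      rw [Finset.coe_insert] at hx
      rcases hx with rfl | hx
      · exact hCN hf₀C
      · exact hFN hx
    · intro x hx y hy
      rw [Finset.coe_insert] at hx hy
      rcases hx with rfl | hx
      · rcases hy with rfl | hy
        · rfl
        · exact (hCF _ hf₀C y hy).symm
      · rcases hy with rfl | hy
        · exact hCF _ hf₀C x hx
        · exact hFc x hx y hy
    · rintro p ⟨⟨hx1, _⟩, _⟩
      exact hA1 p hx1
    · intro f hf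
      rw [Finset.mem_insert] at hf
      rcases hf with rfl | hf
      · refine ⟨v⁻¹ * t * v * w⁻¹ * v⁻¹ * (t : Γ)⁻¹ * v * w, ?_⟩
        rintro ⟨u, y⟩ ⟨⟨hx1, hx2⟩, hx3, hx4⟩
        obtain ⟨t1, t2⟩ := hA1 _ hx1
        obtain ⟨t3, t4⟩ := hA1 _ hx2
        obtain ⟨t5, t6⟩ := hA1 _ hx3
        obtain ⟨t7, t8⟩ := hA1 _ hx4
        simp only [Subgroup.coe_mul] at t1 t2 t3 t4 t5 t6 t7 t8
        refine mid_conj a b c u y t v w t1 t3 ?_ ?_ ?_ ?_ ?_ ?_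
        · rw [mul_assoc]; exact t2
        · rw [mul_assoc]; exact t5
        · rw [← mul_assoc, mul_assoc]; exact t4
        · rw [← mul_assoc, mul_assoc]; exact t7
        · rw [show (u : Γ) * (v * w) * y = u * (v * (w * y)) by group]; exact t6
        · rw [show (u : Γ) * (t * (v * w)) * y = u * t * (v * (w * y)) by group]; exact t8
      · obtain ⟨k, hk⟩ := hA3 f hf
        exact ⟨k, fun x hx => hk x hx.1.1⟩
  · -- finitely many values
    rw [Set.not_infinite] at hCinf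
    apply hv
    obtain ⟨p₀, hp₀⟩ := hM.nonempty hA2
    let K : Set Γ := (fun y => ((p₀.2 * b * p₀.1) * v * (p₀.2 * b * p₀.1)⁻¹) * y) '' (C : Set Γ)
    have hK : K.Finite := hCinf.image _
    obtain ⟨k, _, hk⟩ := hM.exists_pos_of_cover K hK
      (fun k => {p : N × Γ | (p.2 * b * p.1) * v * (p.2 * b * p.1)⁻¹ = k}) A hA2 (by
        intro p hp
        refine ⟨_, ?_, rfl⟩
        refine ⟨((p₀.2 * b * p₀.1) * v * (p₀.2 * b * p₀.1)⁻¹)⁻¹ *
          ((p.2 * b * p.1) * v * (p.2 * b * p.1)⁻¹), ?_, ?_⟩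
        · refine ⟨?_, ?_⟩
          · refine Subgroup.mem_centralizer_iff.2 ?_
            intro f hf
            obtain ⟨k, hk⟩ := hA3 f hf
            have k1 := hk p hp
            have k2 := hk p₀ hp₀
            generalize (p₀.2 * b * p₀.1) * v * (p₀.2 * b * p₀.1)⁻¹ = q₀ at *
            generalize (p.2 * b * p.1) * v * (p.2 * b * p.1)⁻¹ = q at *
            calc f * (q₀⁻¹ * q) = q₀⁻¹ * (q₀ * f * q₀⁻¹) * q := by group
              _ = q₀⁻¹ * (q * f * q⁻¹) * q := by rw [k1, k2]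
              _ = q₀⁻¹ * q * f := by group
          · exact N.mul_mem (N.inv_mem (hN.conj_mem v hvN _)) (hN.conj_mem v hvN _)
        · group)
    obtain ⟨u, hu⟩ := hMf _ hk
    have hu' : 0 < m {x : Γ | x * (b * u * v * (u : Γ)⁻¹ * b⁻¹) * x⁻¹ = k} := by
      refine lt_of_lt_of_le hu (hm.mono ?_)
      intro x hx
      have hx : (x * b * u) * v * (x * b * u)⁻¹ = k := hx
      show x * (b * u * v * (u : Γ)⁻¹ * b⁻¹) * x⁻¹ = k
      rw [← hx]; group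
    have h1 := fc_of_const hN hm hL _ _ hu'
    have h2 := fc_conj hN h1 ((u : Γ)⁻¹ * b⁻¹)
    convert h2 using 1
    group

end Pool.Agent.H52A
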