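import Pool.Agent.Lib.H52A.Final
import Pool.Agent.Lib.H52A.Joint

/-!
Equations of length three for a mean which is only left invariant.
-/

set_option autoImplicit false

namespace Pool.Agent.H52A

open Set

variable {Γ : Type*} [Group Γ]

/-- equations of length three, all signs, for left invariant means -/
theorem all3L {N : Subgroup Γ} (hN : N.Normal) (hNoInf : NoInf N) (hinf : (N : Set Γ).Infinite)
    {m : Set Γ → ℝ} (hm : FAP m) (hL : LInv N m) (a b c : Γ) (e₁ e₂ e₃ : ℤ)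
    (h1 : e₁ = 1 ∨ e₁ = -1) (h2 : e₂ = 1 ∨ e₂ = -1) (h3 : e₃ = 1 ∨ e₃ = -1) :
    ¬ 0 < m {x | a * x ^ e₁ * b * x ^ e₂ * c * x ^ e₃ = 1} := by
  by_cases hne : e₁ = e₂ ∧ e₂ = e₃
  · obtain ⟨rfl, rfl⟩ := hne
    rcases h1 with rfl | rfl
    · intro hpos
      apply pure3 hN hNoInf hinf hm hL a b c
      refine lt_of_lt_of_le hpos (hm.mono ?_)
      intro x hx
      have hx : a * x ^ (1 : ℤ) * b * x ^ (1 : ℤ) * c * x ^ (1 : ℤ) = 1 := hx
      show a * x * b * x * c * x = 1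
      rw [← hx]; group
    · intro hpos
      apply pure3 hN hNoInf hinf hm hL a⁻¹ c⁻¹ b⁻¹
      refine lt_of_lt_of_le hpos (hm.mono ?_)
      intro x hx
      have hx : a * x ^ (-1 : ℤ) * b * x ^ (-1 : ℤ) * c * x ^ (-1 : ℤ) = 1 := hx
      show a⁻¹ * x * c⁻¹ * x * b⁻¹ * x = 1
      calc a⁻¹ * x * c⁻¹ * x * b⁻¹ * x
          = a⁻¹ * (a * x ^ (-1 : ℤ) * b * x ^ (-1 : ℤ) * c * x ^ (-1 : ℤ))⁻¹ * a := by group
        _ = 1 := by rw [hx]; group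
  · exact mixed3 hN hNoInf hinf hm hL a b c e₁ e₂ e₃ h1 h2 h3 hne

/-- positive proportion of solutions of an equation of length three -/
theorem shortL (N : Subgroup Γ) (hN : N.Normal) (hinf : (N : Set Γ).Infinite)
    (m : Set Γ → ℝ) (h0 : ∀ A : Set Γ, 0 ≤ m A) (h1 : m Set.univ = 1)
    (hadd : ∀ A B : Set Γ, Disjoint A B → m (A ∪ B) = m A + m B)
    (hleft : ∀ g ∈ N, ∀ A : Set Γ, m ((fun x => g * x) '' A) = m A)
    (a b c : Γ) (e₁ e₂ e₃ : ℤ)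
    (he₁ : e₁ = 1 ∨ e₁ = -1) (he₂ : e₂ = 1 ∨ e₂ = -1) (he₃ : e₃ = 1 ∨ e₃ = -1)
    (hpos : 0 < m {x | a * x ^ e₁ * b * x ^ e₂ * c * x ^ e₃ ∈ FCset N}) :
    ∃ H : Subgroup Γ, H ≤ N ∧ (H : Set Γ).Infinite ∧ ∀ x ∈ H, ∀ y ∈ H, x * y = y * x := by
  have hm : FAP m := ⟨h0, h1, hadd⟩
  by_contra hcon
  have hNoInf : NoInf N := by
    by_contra h
    exact hcon (exists_abelian h)
  obtain ⟨f, _, hf⟩ := hm.exists_pos_of_cover (FCset N) (FCset_finite hNoInf)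
    (fun f => {x | (f⁻¹ * a) * x ^ e₁ * b * x ^ e₂ * c * x ^ e₃ = 1}) _ hpos
    (fun x hx => ⟨_, hx, by
      show _ = _
      group⟩)
  exact all3L hN hNoInf hinf hm (linv_of_image hleft) _ b c e₁ e₂ e₃ he₁ he₂ he₃ hf

end Pool.Agent.H52A
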